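import Pool.Agent.ThR.Main6
import Pool.Agent.ThF.Lvi

/-! # Combinatorics of the parabolic subgroup of `E_6` with Levi subgroup of type `A_2 A_1 A_1` (MP_3d54b6_al, the field with two elements) -/

namespace Pool.Agent.ThW

open ThE ThK ThR
open ThF (uM r3 n0)

/-- the level: the sum of the coefficients of the simple roots `e_2 - e_1`, `e_4 - e_3` -/
def lq (v : Vec 6) : ℤ := 2 * v.1 - v.2 0 - v.2 1 + v.2 4 + v.2 5

/-- the level: the sum of the coefficients of the simple roots `γ`, `e_3 - e_2` -/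
def lz (v : Vec 6) : ℤ := v.1 + v.2 3 + v.2 4 + v.2 5

/-- the family of the component `A_2` (differences: `γ`, `e_3 - e_2`, `γ + e_3 - e_2` and the negatives) -/
def uL : Fin 3 → Vec 6 := ![gm.1, 0, -r3.1]

/-- the family `e_0, e_1` -/
def uP : Fin 2 → Vec 6 := ![uA 0, uA 1]

/-- the family `-e_5, -e_4` -/
def uR : Fin 2 → Vec 6 := ![uM 0, uM 1]

theorem addlq : Addl lq := by
  intro v w
  show 2 * (v.1 + w.1) - (v.2 0 + w.2 0) - (v.2 1 + w.2 1) + (v.2 4 + w.2 4) + (v.2 5 + w.2 5) =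
    (2 * v.1 - v.2 0 - v.2 1 + v.2 4 + v.2 5) + (2 * w.1 - w.2 0 - w.2 1 + w.2 4 + w.2 5)
  ring

theorem addlz : Addl lz := by
  intro v w
  show (v.1 + w.1) + (v.2 3 + w.2 3) + (v.2 4 + w.2 4) + (v.2 5 + w.2 5) = (v.1 + v.2 3 + v.2 4 + v.2 5) + (w.1 + w.2 3 + w.2 4 + w.2 5)
  ring

theorem fam_uL : Fam lq uL := by
  unfold Fam L0
  decide +kernel

theorem fam_uP : Fam lq uP := by
  unfold Fam L0
  decide +kernel

theorem fam_uR : Fam lq uR := by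
  unfold Fam L0
  decide +kernel

theorem famz_uA : Fam lz uA := by
  unfold Fam L0
  decide +kernel

theorem famz_uM : Fam lz uM := by
  unfold Fam L0
  decide +kernel

theorem orth_LP : Orth uL uP := by
  unfold Orth
  decide +kernel

theorem orth_LR : Orth uL uR := by
  unfold Orth
  decide +kernel

theorem orth_PR : Orth uP uR := by
  unfold Orth
  decide +kernel

private theorem co_two {d : ℤ} (h : d ^ 2 ≤ 4) : -2 ≤ d ∧ d ≤ 2 := ⟨by nlinarith, by nlinarith⟩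

private theorem co_one {m : ℤ} (h : m ^ 2 ≤ 2) : -1 ≤ m ∧ m ≤ 1 := ⟨by nlinarith, by nlinarith⟩

/-- the coordinates of a root vector -/
private theorem co_bound {v : Vec 6} (h : IsR v) : (-2 ≤ v.1 ∧ v.1 ≤ 2) ∧ ∀ i, -1 ≤ v.2 i ∧ v.2 i ≤ 1 := by
  obtain ⟨h1, h2⟩ := h
  rw [Fin.sum_univ_six] at h1 h2
  generalize hd : v.1 = d at h1 h2
  have key : ∀ m a b c e f : ℤ, m + a + b + c + e + f = 3 * d → m ^ 2 + a ^ 2 + b ^ 2 + c ^ 2 + e ^ 2 + f ^ 2 = d ^ 2 + 2 → (-2 ≤ d ∧ d ≤ 2) ∧ (-1 ≤ m ∧ m ≤ 1) := by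
    intro m a b c e f k1 k2
    have k3 : (a + b + c + e + f) ^ 2 ≤ 5 * (a ^ 2 + b ^ 2 + c ^ 2 + e ^ 2 + f ^ 2) := by
      nlinarith [sq_nonneg (a - b), sq_nonneg (a - c), sq_nonneg (a - e), sq_nonneg (a - f), sq_nonneg (b - c), sq_nonneg (b - e), sq_nonneg (b - f), sq_nonneg (c - e), sq_nonneg (c - f), sq_nonneg (e - f)]
    have k4 : a + b + c + e + f = 3 * d - m := by linarith
    have k5 : a ^ 2 + b ^ 2 + c ^ 2 + e ^ 2 + f ^ 2 = d ^ 2 + 2 - m ^ 2 := by linarith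
    rw [k4, k5] at k3
    have k6 : 2 * d ^ 2 - 3 * d * m + 3 * m ^ 2 ≤ 5 := by nlinarith
    have k7 : m ^ 2 ≤ 2 := by
      have k9 := sq_nonneg (4 * d - 3 * m)
      have k10 : (4 * d - 3 * m) ^ 2 = 8 * (2 * d ^ 2 - 3 * d * m + 3 * m ^ 2) - 15 * m ^ 2 := by ring
      omega
    have k8 : d ^ 2 ≤ 4 := by
      have k9 := sq_nonneg (2 * m - d)
      have k10 : 3 * (2 * m - d) ^ 2 = 4 * (2 * d ^ 2 - 3 * d * m + 3 * m ^ 2) - 5 * d ^ 2 := by ring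
      omega
    exact ⟨co_two k8, co_one k7⟩
  refine ⟨(key _ _ _ _ _ _ h1 h2).1, fun i => ?_⟩
  fin_cases i
  · exact (key (v.2 0) (v.2 1) (v.2 2) (v.2 3) (v.2 4) (v.2 5) h1 h2).2
  · exact (key (v.2 1) (v.2 0) (v.2 2) (v.2 3) (v.2 4) (v.2 5) (by linarith) (by linarith)).2
  · exact (key (v.2 2) (v.2 0) (v.2 1) (v.2 3) (v.2 4) (v.2 5) (by linarith) (by linarith)).2
  · exact (key (v.2 3) (v.2 0) (v.2 1) (v.2 2) (v.2 4) (v.2 5) (by linarith) (by linarith)).2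
  · exact (key (v.2 4) (v.2 0) (v.2 1) (v.2 2) (v.2 3) (v.2 5) (by linarith) (by linarith)).2
  · exact (key (v.2 5) (v.2 0) (v.2 1) (v.2 2) (v.2 3) (v.2 4) (by linarith) (by linarith)).2

/-- INDUCTION OVER THE 72 ROOT VECTORS (a finite check) -/
theorem root_ind {p : ℤ → ℤ → ℤ → ℤ → ℤ → ℤ → ℤ → Prop}
    (h : ∀ (d : Fin 5) (a b c e f g : Fin 3), (a : ℤ) - 1 + ((b : ℤ) - 1) + ((c : ℤ) - 1) + ((e : ℤ) - 1) + ((f : ℤ) - 1) + ((g : ℤ) - 1) = 3 * ((d : ℤ) - 2) →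
      ((a : ℤ) - 1) ^ 2 + ((b : ℤ) - 1) ^ 2 + ((c : ℤ) - 1) ^ 2 + ((e : ℤ) - 1) ^ 2 + ((f : ℤ) - 1) ^ 2 + ((g : ℤ) - 1) ^ 2 = ((d : ℤ) - 2) ^ 2 + 2 →
      p ((d : ℤ) - 2) ((a : ℤ) - 1) ((b : ℤ) - 1) ((c : ℤ) - 1) ((e : ℤ) - 1) ((f : ℤ) - 1) ((g : ℤ) - 1)) {v : Vec 6} (hv : IsR v) :
    p v.1 (v.2 0) (v.2 1) (v.2 2) (v.2 3) (v.2 4) (v.2 5) := by
  obtain ⟨⟨b1, b2⟩, b3⟩ := co_bound hv
  obtain ⟨h1, h2⟩ := hv
  rw [Fin.sum_univ_six] at h1 h2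
  have e : ∀ m : ℤ, -1 ≤ m ∧ m ≤ 1 → ∃ x : Fin 3, (x : ℤ) - 1 = m := fun m hm => ⟨⟨(m + 1).toNat, by omega⟩, by simp; omega⟩
  have ed : ∃ x : Fin 5, (x : ℤ) - 2 = v.1 := ⟨⟨(v.1 + 2).toNat, by omega⟩, by simp; omega⟩
  obtain ⟨x, hx⟩ := ed
  obtain ⟨x0, h0⟩ := e _ (b3 0)
  obtain ⟨x1, h1'⟩ := e _ (b3 1)
  obtain ⟨x2, h2'⟩ := e _ (b3 2)
  obtain ⟨x3, h3'⟩ := e _ (b3 3)
  obtain ⟨x4, h4'⟩ := e _ (b3 4)
  obtain ⟨x5, h5'⟩ := e _ (b3 5)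
  have := h x x0 x1 x2 x3 x4 x5
  rw [hx, h0, h1', h2', h3', h4', h5'] at this
  exact this h1 h2

/-- the vector with these coordinates -/
def vc (d a b c e f g : ℤ) : Vec 6 := (d, ![a, b, c, e, f, g])

theorem vc_eq (v : Vec 6) : v = vc v.1 (v.2 0) (v.2 1) (v.2 2) (v.2 3) (v.2 4) (v.2 5) := by
  refine Prod.ext rfl (funext fun i => ?_)
  fin_cases i <;> rfl

theorem ht_eq (v : Vec 6) : ht v = v.2 0 + 2 * v.2 1 + 3 * v.2 2 + 4 * v.2 3 + 5 * v.2 4 + 6 * v.2 5 - 5 * v.1 := by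
  simp only [ht, Fin.sum_univ_six]
  norm_num

theorem lq_lt (r : Root 6) : lq r.1 < (5 : ℕ) := by
  have := root_ind (p := fun d a b c e f g => 2 * d - a - b + f + g < 5) (by decide +kernel) r.2
  exact this

theorem lq_nonneg {r : Root 6} (h : 0 < ht r.1) : 0 ≤ lq r.1 := by
  have := root_ind (p := fun d a b c e f g => 0 < a + 2 * b + 3 * c + 4 * e + 5 * f + 6 * g - 5 * d → 0 ≤ 2 * d - a - b + f + g) (by decide +kernel) r.2
  rw [ht_eq] at h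
  exact this h

theorem lz_nonneg {r : Root 6} (h : 0 < ht r.1) : 0 ≤ lz r.1 := by
  have := root_ind (p := fun d a b c e f g => 0 < a + 2 * b + 3 * c + 4 * e + 5 * f + 6 * g - 5 * d → 0 ≤ d + e + f + g) (by decide +kernel) r.2
  rw [ht_eq] at h
  exact this h

/-- `v` is a difference of two vectors of the family -/
def IsD {m : ℕ} (u : Fin m → Vec 6) (v : Vec 6) : Prop := ∃ i j : Fin m, i ≠ j ∧ v = u i - u j

instance {m : ℕ} (u : Fin m → Vec 6) (v : Vec 6) : Decidable (IsD u v) := by unfold IsD; infer_instance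

theorem lz_zero {v : Vec 6} (hv : IsR v) (h : lz v = 0) : IsD uA v ∨ IsD uM v := by
  have := root_ind (p := fun d a b c e f g => d + e + f + g = 0 → IsD uA (vc d a b c e f g) ∨ IsD uM (vc d a b c e f g))
    (by decide +kernel) hv
  rw [← vc_eq] at this
  exact this h

theorem lz_pos {v : Vec 6} (hv : IsR v) (h : 1 ≤ lz v) : 0 ≤ lq v ∧ (lq v = 0 → IsD uL v) := by
  have := root_ind (p := fun d a b c e f g => 1 ≤ d + e + f + g → 0 ≤ 2 * d - a - b + f + g ∧ (2 * d - a - b + f + g = 0 → IsD uL (vc d a b c e f g)))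
    (by decide +kernel) hv
  rw [← vc_eq] at this
  exact this h

/-- the weights -/
theorem lq_wt {v : Vec 6} (hv : IsR v) (h : 1 ≤ lq v) : ¬ ((7 : ℤ) ∣ (v.2 0 + v.2 1 + v.2 2 - v.1) - 4 * (v.2 3 - v.2 2) ∧ (3 : ℤ) ∣ v.2 0 - v.2 1 - v.2 5 + v.2 4) := by
  have := root_ind (p := fun d a b c e f g => 1 ≤ 2 * d - a - b + f + g → ¬ ((7 : ℤ) ∣ (a + b + c - d) - 4 * (e - c) ∧ (3 : ℤ) ∣ a - b - g + f)) (by decide +kernel) hv
  exact this h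

variable {L : Type*} [Field L]

theorem wt_uL (z : Lˣ) (v : Vec 6) : wt uL ![z, z ^ 2, z ^ 4] v = z ^ ((v.2 0 + v.2 1 + v.2 2 - v.1) - 4 * (v.2 3 - v.2 2)) := by
  have e0 : bf (uL 0) v = v.2 0 + v.2 1 + v.2 2 - v.1 := by
    simp [uL, bf, gm, Fin.sum_univ_six]
  have e1 : bf (uL 1) v = 0 := by
    simp [uL, bf]
  have e2 : bf (uL 2) v = -(v.2 3 - v.2 2) := by
    simp [uL, bf, r3, Fin.sum_univ_six]
    ring
  unfold wt
  rw [Fin.prod_univ_three, e0, e1, e2]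
  show z ^ _ * (z ^ 2) ^ (0 : ℤ) * (z ^ 4) ^ _ = _
  rw [zpow_zero, mul_one, ← zpow_natCast, ← zpow_mul, ← zpow_add]
  congr 1
  push_cast
  ring

theorem wt_uP (w : Lˣ) (v : Vec 6) : wt uP ![w, w⁻¹] v = w ^ (v.2 0 - v.2 1) := by
  have e0 : bf (uP 0) v = v.2 0 := by
    simp [uP, uA, ue, bf, Pi.single_apply]
  have e1 : bf (uP 1) v = v.2 1 := by
    simp [uP, uA, ue, bf, Pi.single_apply]
  unfold wt
  rw [Fin.prod_univ_two, e0, e1]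
  show w ^ _ * (w⁻¹) ^ _ = _
  rw [inv_zpow, ← zpow_neg, ← zpow_add, sub_eq_add_neg]

theorem wt_uR (w : Lˣ) (v : Vec 6) : wt uR ![w, w⁻¹] v = w ^ (v.2 4 - v.2 5) := by
  have e0 : bf (uR 0) v = -v.2 5 := by
    simp [uR, uM, ue, bf, Pi.single_apply]
  have e1 : bf (uR 1) v = -v.2 4 := by
    simp [uR, uM, ue, bf, Pi.single_apply]
  unfold wt
  rw [Fin.prod_univ_two, e0, e1]
  show w ^ _ * (w⁻¹) ^ _ = _
  rw [inv_zpow, ← zpow_neg, ← zpow_add]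
  congr 1
  ring

/-- NO WEIGHT IS TRIVIAL -/
theorem wt_ne {z w : Lˣ} (hz : z ^ 7 = 1) (hz1 : z ≠ 1) (hw : w ^ 3 = 1) (hw1 : w ≠ 1) {v : Vec 6} (hv : IsR v) (h : 1 ≤ lq v) :
    wt uL ![z, z ^ 2, z ^ 4] v * wt uP ![w, w⁻¹] v * wt uR ![w, w⁻¹] v ≠ 1 := by
  rw [wt_uL, wt_uP, wt_uR]
  intro h0
  haveI : Fact (Nat.Prime 7) := ⟨by norm_num⟩
  have oz : orderOf z = 7 := orderOf_eq_prime hz hz1
  have ow : orderOf w = 3 := orderOf_eq_prime hw hw1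
  generalize hA : (v.2 0 + v.2 1 + v.2 2 - v.1) - 4 * (v.2 3 - v.2 2) = A at h0
  rw [mul_assoc, ← zpow_add] at h0
  have hB : v.2 0 - v.2 1 + (v.2 4 - v.2 5) = v.2 0 - v.2 1 - v.2 5 + v.2 4 := by ring
  rw [hB] at h0
  generalize hB' : v.2 0 - v.2 1 - v.2 5 + v.2 4 = B at h0
  refine lq_wt hv h ⟨?_, ?_⟩
  · rw [hA]
    have h1 : z ^ (3 * A) = 1 := by
      have h2 : (z ^ A * w ^ B) ^ (3 : ℤ) = z ^ (3 * A) := by
        rw [mul_zpow, ← zpow_mul, ← zpow_mul, mul_comm B, zpow_mul w, ← Nat.cast_ofNat, zpow_natCast, hw, one_zpow, mul_one, mul_comm]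
      rw [← h2, h0, one_zpow]
    have h3 := orderOf_dvd_iff_zpow_eq_one.2 h1
    rw [oz] at h3
    have h4 : IsCoprime (7 : ℤ) 3 := by
      rw [Int.isCoprime_iff_gcd_eq_one]
      rfl
    exact h4.dvd_of_dvd_mul_left h3
  · rw [hB']
    have h1 : w ^ (7 * B) = 1 := by
      have h2 : (z ^ A * w ^ B) ^ (7 : ℤ) = w ^ (7 * B) := by
        rw [mul_zpow, ← zpow_mul, ← zpow_mul, mul_comm A, zpow_mul z, ← Nat.cast_ofNat, zpow_natCast, hz, one_zpow, one_mul, mul_comm]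
      rw [← h2, h0, one_zpow]
    have h3 := orderOf_dvd_iff_zpow_eq_one.2 h1
    rw [ow] at h3
    have h4 : IsCoprime (3 : ℤ) 7 := by
      rw [Int.isCoprime_iff_gcd_eq_one]
      rfl
    exact h4.dvd_of_dvd_mul_left h3

end Pool.Agent.ThW
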