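import Pool.Agent.ThW.Fin3
import Pool.Agent.ThR.Rep

/-! # Diagonal forms of the elements of order `7` and `3` (MP_3d54b6_al, the field with two elements) -/

namespace Pool.Agent.ThW

open ThE ThK Polynomial

variable {K : Type*} [Field K]

-- BEGIN F5
private theorem f5_two {L : Type*} [Field L] (hK : ∀ t : K, t = 0 ∨ t = 1) (κ : K →+* L) : (2 : L) = 0 := by
  have h : (2 : K) = 0 := by
    rcases hK 2 with h | h
    · exact h
    · exfalso
      have h1 : (1 : K) = 0 := by linear_combination h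
      exact one_ne_zero h1
  have h2 := congrArg κ h
  rwa [map_ofNat, map_zero] at h2

private theorem f5_B7 : (B7 K).1 = !![1 + 1, 1, 1; 1, 1, 1; 1, 0, 1] := by
  have h01 : (0 : Fin 3) ≠ 1 := by decide
  have h12 : (1 : Fin 3) ≠ 2 := by decide
  have h20 : (2 : Fin 3) ≠ 0 := by decide
  simp only [B7, el, dif_pos h01, dif_pos h12, dif_pos h20, Matrix.SpecialLinearGroup.coe_mul]
  ext i j
  fin_cases i <;> fin_cases j <;> simp [Matrix.mul_apply, Fin.sum_univ_three, Matrix.transvection, Matrix.single, Matrix.one_apply]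

private theorem f5_C3 : (C3 K).1 = !![1 + 1, 1; 1, 1] := by
  have h01 : (0 : Fin 2) ≠ 1 := by decide
  have h10 : (1 : Fin 2) ≠ 0 := by decide
  simp only [C3, el, dif_pos h01, dif_pos h10, Matrix.SpecialLinearGroup.coe_mul]
  ext i j
  fin_cases i <;> fin_cases j <;> simp [Matrix.mul_apply, Fin.sum_univ_two, Matrix.transvection, Matrix.single, Matrix.one_apply]

private theorem f5_map3 {L : Type*} [Field L] (h2 : (2 : L) = 0) (κ : K →+* L) :
    (Matrix.SpecialLinearGroup.map κ (B7 K)).1 = !![0, 1, 1; 1, 1, 1; 1, 0, 1] := by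
  have h : (1 : L) + 1 = 0 := by linear_combination h2
  have e : (Matrix.SpecialLinearGroup.map κ (B7 K)).1 = (B7 K).1.map κ := rfl
  rw [e, f5_B7]
  ext i j
  fin_cases i <;> fin_cases j <;> simp [h]

private theorem f5_map2 {L : Type*} [Field L] (h2 : (2 : L) = 0) (κ : K →+* L) :
    (Matrix.SpecialLinearGroup.map κ (C3 K)).1 = !![0, 1; 1, 1] := by
  have h : (1 : L) + 1 = 0 := by linear_combination h2
  have e : (Matrix.SpecialLinearGroup.map κ (C3 K)).1 = (C3 K).1.map κ := rfl
  rw [e, f5_C3]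
  ext i j
  fin_cases i <;> fin_cases j <;> simp [h]

theorem diag7 (hK : ∀ t : K, t = 0 ∨ t = 1) {L : Type*} [Field L] [IsAlgClosed L] (κ : K →+* L) :
    ∃ (z : Lˣ) (p : Matrix.SpecialLinearGroup (Fin 3) L) (hD : ∏ i, (![z, z ^ 2, z ^ 4] : Fin 3 → Lˣ) i = 1), z ^ 7 = 1 ∧ z ≠ 1 ∧
      Matrix.SpecialLinearGroup.map κ (B7 K) = p * ThR.dg ![z, z ^ 2, z ^ 4] hD * p⁻¹ := by
  have h2 : (2 : L) = 0 := f5_two hK κ
  obtain ⟨y, hy⟩ : ∃ y : L, y ^ 3 + y + 1 = 0 := by
    have hd : (X ^ 3 + X + 1 : L[X]).degree ≠ 0 := by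
      have : (X ^ 3 + X + 1 : L[X]).degree = 3 := by compute_degree!
      rw [this]; decide
    obtain ⟨y, hy⟩ := IsAlgClosed.exists_root (X ^ 3 + X + 1 : L[X]) hd
    refine ⟨y, ?_⟩
    simpa [Polynomial.IsRoot] using hy
  have hy0 : y ≠ 0 := by
    rintro rfl
    simp at hy
  have hy1 : y ≠ 1 := by
    rintro rfl
    have : (1 : L) = 0 := by linear_combination hy - h2
    exact one_ne_zero this
  have hy3 : y ^ 3 = y + 1 := by linear_combination hy - (y + 1) * h2
  have hy4 : y ^ 4 = y ^ 2 + y := by linear_combination y * hy3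
  have hy7 : y ^ 7 = 1 := by
    linear_combination (y ^ 4 + y ^ 2 + y + 1) * hy3 + (y ^ 2 + y) * h2
  have hinj : Function.Injective (![Units.mk0 y hy0, Units.mk0 y hy0 ^ 2, Units.mk0 y hy0 ^ 4] : Fin 3 → Lˣ) := by
    have n1 : Units.mk0 y hy0 ≠ Units.mk0 y hy0 ^ 2 := by
      intro h
      have h' := congrArg (Units.val) h
      simp only [Units.val_mk0, Units.val_pow_eq_pow_val] at h'
      apply hy1
      have : y * (y - 1) = 0 := by linear_combination -h'
      rcases mul_eq_zero.mp this with h | h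
      · exact absurd h hy0
      · linear_combination h
    have n2 : Units.mk0 y hy0 ≠ Units.mk0 y hy0 ^ 4 := by
      intro h
      have h' := congrArg (Units.val) h
      simp only [Units.val_mk0, Units.val_pow_eq_pow_val] at h'
      have : y ^ 2 = 0 := by linear_combination -h' - hy4
      exact hy0 (pow_eq_zero_iff (by norm_num) |>.mp this)
    have n3 : Units.mk0 y hy0 ^ 2 ≠ Units.mk0 y hy0 ^ 4 := by
      intro h
      have h' := congrArg (Units.val) h
      simp only [Units.val_mk0, Units.val_pow_eq_pow_val] at h'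
      apply hy0
      linear_combination -h' - hy4
    intro i j hij
    fin_cases i <;> fin_cases j
    · rfl
    · exact absurd hij n1
    · exact absurd hij n2
    · exact absurd hij.symm n1
    · rfl
    · exact absurd hij n3
    · exact absurd hij.symm n2
    · exact absurd hij.symm n3
    · rfl
  have hchar : (Matrix.SpecialLinearGroup.map κ (B7 K)).1.charpoly =
      ∏ i, (X - C (((![Units.mk0 y hy0, Units.mk0 y hy0 ^ 2, Units.mk0 y hy0 ^ 4] : Fin 3 → Lˣ) i : Lˣ) : L)) := by
    rw [f5_map3 h2 κ, Fin.prod_univ_three]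
    have hC2 : (2 : L[X]) = 0 := by
      have := congrArg C h2
      rwa [C_ofNat, C_0] at this
    have e3 : (C y : L[X]) ^ 3 = C y + 1 := by
      rw [← C_pow, hy3, C_add, C_1]
    simp only [Matrix.charpoly, Matrix.det_fin_three, Matrix.charmatrix_apply, Matrix.diagonal_apply]
    simp
    linear_combination (X ^ 2 * C y - X * (3 + C y + C y ^ 2 + C y ^ 3) + (1 + C y + C y ^ 2 + C y ^ 4)) * e3 +
      (X ^ 2 * (C y + C y ^ 2 - 1) - X * (C y ^ 2 + 2 * C y + 2) + (C y ^ 2 + C y + 1)) * hC2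
  obtain ⟨hD, p, hp⟩ := ThR.exists_diag (m := 2) (Matrix.SpecialLinearGroup.map κ (B7 K)) _ hinj hchar
  refine ⟨Units.mk0 y hy0, p, hD, ?_, ?_, hp⟩
  · ext
    simpa using hy7
  · intro h
    apply hy1
    have h' := congrArg (Units.val) h
    simpa using h'

theorem diag3 (hK : ∀ t : K, t = 0 ∨ t = 1) {L : Type*} [Field L] [IsAlgClosed L] (κ : K →+* L) :
    ∃ (w : Lˣ) (p : Matrix.SpecialLinearGroup (Fin 2) L) (hD : ∏ i, (![w, w⁻¹] : Fin 2 → Lˣ) i = 1), w ^ 3 = 1 ∧ w ≠ 1 ∧
      Matrix.SpecialLinearGroup.map κ (C3 K) = p * ThR.dg ![w, w⁻¹] hD * p⁻¹ := by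
  have h2 : (2 : L) = 0 := f5_two hK κ
  obtain ⟨y, hy⟩ : ∃ y : L, y ^ 2 + y + 1 = 0 := by
    have hd : (X ^ 2 + X + 1 : L[X]).degree ≠ 0 := by
      have : (X ^ 2 + X + 1 : L[X]).degree = 2 := by compute_degree!
      rw [this]; decide
    obtain ⟨y, hy⟩ := IsAlgClosed.exists_root (X ^ 2 + X + 1 : L[X]) hd
    refine ⟨y, ?_⟩
    simpa [Polynomial.IsRoot] using hy
  have hy0 : y ≠ 0 := by
    rintro rfl
    simp at hy
  have hy1 : y ≠ 1 := by
    rintro rfl
    have : (1 : L) = 0 := by linear_combination hy - h2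
    exact one_ne_zero this
  have hy3 : y ^ 3 = 1 := by linear_combination (y - 1) * hy
  have hyi : y⁻¹ = y + 1 := by
    have : y⁻¹ * y = 1 := inv_mul_cancel₀ hy0
    have h' : (y + 1) * y = 1 := by linear_combination hy - h2
    exact mul_right_cancel₀ hy0 (this.trans h'.symm)
  have hinj : Function.Injective (![Units.mk0 y hy0, (Units.mk0 y hy0)⁻¹] : Fin 2 → Lˣ) := by
    have n1 : Units.mk0 y hy0 ≠ (Units.mk0 y hy0)⁻¹ := by
      intro h
      have h' := congrArg (Units.val) h
      simp only [Units.val_mk0, Units.val_inv_eq_inv_val, hyi] at h'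
      have : (1 : L) = 0 := by linear_combination -h'
      exact one_ne_zero this
    intro i j hij
    fin_cases i <;> fin_cases j
    · rfl
    · exact absurd hij n1
    · exact absurd hij.symm n1
    · rfl
  have hchar : (Matrix.SpecialLinearGroup.map κ (C3 K)).1.charpoly =
      ∏ i, (X - C (((![Units.mk0 y hy0, (Units.mk0 y hy0)⁻¹] : Fin 2 → Lˣ) i : Lˣ) : L)) := by
    rw [f5_map2 h2 κ, Fin.prod_univ_two]
    have hC2 : (2 : L[X]) = 0 := by
      have := congrArg C h2
      rwa [C_ofNat, C_0] at this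
    have e2 : (C y : L[X]) ^ 2 + C y + 1 = 0 := by
      rw [← C_pow, ← C_add, ← C_1, ← C_add, hy, C_0]
    have ei : (C y⁻¹ : L[X]) = C y + 1 := by rw [hyi, C_add, C_1]
    simp only [Matrix.charpoly, Matrix.det_fin_two, Matrix.charmatrix_apply, Matrix.diagonal_apply]
    simp
    rw [ei]
    linear_combination (C y * X) * hC2 - e2
  obtain ⟨hD, p, hp⟩ := ThR.exists_diag (m := 1) (Matrix.SpecialLinearGroup.map κ (C3 K)) _ hinj hchar
  refine ⟨Units.mk0 y hy0, p, hD, ?_, ?_, hp⟩
  · ext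
    simpa using hy3
  · intro h
    apply hy1
    have h' := congrArg (Units.val) h
    simpa using h'
-- END F5

end Pool.Agent.ThW
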