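import Pool.Agent.ThK.Defs

/-! # Finite computations in `SL_3` and `SL_2` over the field with two elements -/

namespace Pool.Agent.ThW
open Matrix ThK

/-- a `3 x 3` matrix over the field with two elements -/
structure M9 where
  (a b c d e f g h i : Bool)

namespace M9

/-- the product -/
def mul (x y : M9) : M9 :=
  ⟨xor (xor (x.a && y.a) (x.b && y.d)) (x.c && y.g), xor (xor (x.a && y.b) (x.b && y.e)) (x.c && y.h), xor (xor (x.a && y.c) (x.b && y.f)) (x.c && y.i),
   xor (xor (x.d && y.a) (x.e && y.d)) (x.f && y.g), xor (xor (x.d && y.b) (x.e && y.e)) (x.f && y.h), xor (xor (x.d && y.c) (x.e && y.f)) (x.f && y.i),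
   xor (xor (x.g && y.a) (x.h && y.d)) (x.i && y.g), xor (xor (x.g && y.b) (x.h && y.e)) (x.i && y.h), xor (xor (x.g && y.c) (x.h && y.f)) (x.i && y.i)⟩

/-- the determinant -/
def det (x : M9) : Bool :=
  xor (xor (x.a && xor (x.e && x.i) (x.f && x.h)) (x.b && xor (x.d && x.i) (x.f && x.g))) (x.c && xor (x.d && x.h) (x.e && x.g))

/-- the adjugate -/
def adj (x : M9) : M9 :=
  ⟨xor (x.e && x.i) (x.f && x.h), xor (x.b && x.i) (x.c && x.h), xor (x.b && x.f) (x.c && x.e),
   xor (x.d && x.i) (x.f && x.g), xor (x.a && x.i) (x.c && x.g), xor (x.a && x.f) (x.c && x.d),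
   xor (x.d && x.h) (x.e && x.g), xor (x.a && x.h) (x.b && x.g), xor (x.a && x.e) (x.b && x.d)⟩

/-- the matrix with columns `v`, `x v`, `x (x v)` -/
def cyc (x : M9) (p q r : Bool) : M9 :=
  let p1 := xor (xor (x.a && p) (x.b && q)) (x.c && r)
  let q1 := xor (xor (x.d && p) (x.e && q)) (x.f && r)
  let r1 := xor (xor (x.g && p) (x.h && q)) (x.i && r)
  ⟨p, p1, xor (xor (x.a && p1) (x.b && q1)) (x.c && r1), q, q1, xor (xor (x.d && p1) (x.e && q1)) (x.f && r1), r, r1, xor (xor (x.g && p1) (x.h && q1)) (x.i && r1)⟩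

/-- boolean equality -/
def eqb (x y : M9) : Bool :=
  (x.a == y.a) && (x.b == y.b) && (x.c == y.c) && (x.d == y.d) && (x.e == y.e) && (x.f == y.f) && (x.g == y.g) && (x.h == y.h) && (x.i == y.i)

theorem eq_of_eqb {x y : M9} (h : eqb x y = true) : x = y := by
  cases x; cases y
  simp only [eqb, Bool.and_eq_true, beq_iff_eq] at h
  obtain ⟨⟨⟨⟨⟨⟨⟨⟨h1, h2⟩, h3⟩, h4⟩, h5⟩, h6⟩, h7⟩, h8⟩, h9⟩ := h
  subst h1 h2 h3 h4 h5 h6 h7 h8 h9
  rfl

/-- the element `B7` -/
def b7 : M9 := ⟨false, true, true, true, true, true, true, false, true⟩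
/-- its inverse -/
def c7 : M9 := ⟨true, true, false, false, true, true, true, true, true⟩
/-- companion matrix of `x ^ 3 + 1` -/
def w3 : M9 := ⟨false, false, true, true, false, false, false, true, false⟩

/-- conjugating matrices -/
def l1 : List M9 := [⟨false, false, true, false, true, false, true, false, false⟩,
  ⟨false, false, true, false, true, true, true, false, true⟩,
  ⟨false, false, true, false, true, false, true, true, false⟩,
  ⟨false, false, true, false, true, false, true, true, true⟩,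
  ⟨false, false, true, true, false, false, false, true, true⟩,
  ⟨false, false, true, true, false, false, true, true, true⟩,
  ⟨false, false, true, true, false, true, false, true, false⟩,
  ⟨false, true, false, true, true, true, false, false, true⟩,
  ⟨false, true, false, true, false, true, false, true, true⟩,
  ⟨false, false, true, false, true, true, true, true, false⟩,
  ⟨false, false, true, false, true, true, true, true, true⟩,
  ⟨false, false, true, true, false, true, true, true, false⟩]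

/-- conjugating matrices -/
def l2 : List M9 := [⟨false, false, true, false, true, false, true, false, true⟩,
  ⟨false, false, true, true, true, false, true, false, true⟩,
  ⟨false, false, true, true, true, true, true, false, false⟩,
  ⟨false, false, true, false, true, true, true, false, false⟩,
  ⟨false, false, true, true, false, true, false, true, true⟩,
  ⟨false, false, true, true, true, false, false, true, true⟩,
  ⟨false, false, true, true, false, true, false, true, false⟩,
  ⟨false, false, true, true, true, true, true, false, true⟩,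
  ⟨false, false, true, true, true, true, false, true, false⟩,
  ⟨false, false, true, false, true, true, true, false, true⟩,
  ⟨false, false, true, true, false, true, true, true, true⟩,
  ⟨false, false, true, false, true, false, true, true, true⟩,
  ⟨false, false, true, true, true, false, true, false, false⟩,
  ⟨false, false, true, false, true, false, true, false, false⟩,
  ⟨false, false, true, true, false, false, false, true, true⟩,
  ⟨false, false, true, true, false, false, true, true, false⟩]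

/-- conjugating matrices -/
def l3 : List M9 := [⟨false, true, true, true, true, true, true, true, false⟩,
  ⟨false, false, true, true, true, true, false, true, false⟩,
  ⟨false, true, true, true, true, true, false, false, true⟩,
  ⟨false, false, true, true, true, true, true, false, true⟩,
  ⟨false, true, true, false, true, false, true, true, false⟩,
  ⟨false, false, true, false, true, false, true, true, false⟩,
  ⟨false, true, true, true, true, false, true, true, true⟩,
  ⟨false, true, true, false, false, true, true, true, false⟩]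

/-- the vectors -/
def vs : List (Bool × Bool × Bool) := [(true, false, false), (false, true, false), (false, false, true), (true, true, false), (true, false, true), (false, true, true), (true, true, true)]

/-- the condition on the leading block -/
def blk (y : M9) : Bool := y.i && (xor y.d (y.f && y.g) == xor y.b (y.c && y.h)) && xor y.e (y.f && y.h) && (xor y.a (y.c && y.g) == !(xor y.b (y.c && y.h)))

/-- check -/
def chk1 (m : M9) : Bool := l1.any fun p => p.det && blk ((p.mul m).mul p.adj)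

/-- check -/
def chk2 (m : M9) : Bool := l2.any fun p =>
  p.det && (let y := (((p.mul b7).mul p.adj).adj).mul m
    let q := (cyc y true false false).mul ⟨true, false, false, false, true, false, false, true, true⟩
    let q' := (cyc y true false false).mul ⟨true, true, true, false, false, true, false, true, false⟩
    (q.det && eqb (y.mul q) (q.mul b7)) || (q'.det && eqb (y.mul q') (q'.mul c7)))

/-- check -/
def chk3 (m : M9) : Bool := l3.any fun p =>
  p.det && (let y := (((p.mul w3).mul p.adj).adj).mul m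
    vs.any fun v => (let q := cyc y v.1 v.2.1 v.2.2
      q.det && (eqb (y.mul q) (q.mul w3))))

end M9
open M9

private theorem chk1_all : ∀ a b c d e f g h i : Bool, M9.det ⟨a, b, c, d, e, f, g, h, i⟩ = true → chk1 ⟨a, b, c, d, e, f, g, h, i⟩ = true := by
  decide

private theorem chk2_all : ∀ a b c d e f g h i : Bool, M9.det ⟨a, b, c, d, e, f, g, h, i⟩ = true → chk2 ⟨a, b, c, d, e, f, g, h, i⟩ = true := by
  decide

private theorem chk3_all : ∀ a b c d e f g h i : Bool, M9.det ⟨a, b, c, d, e, f, g, h, i⟩ = true → chk3 ⟨a, b, c, d, e, f, g, h, i⟩ = true := by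
  decide

variable {K : Type*} [Field K]

/-- the element `0` or `1` -/
def bt (K : Type*) [Field K] (b : Bool) : K := cond b 1 0

/-- the matrix over `K` -/
def M9.toM (K : Type*) [Field K] (x : M9) : Matrix (Fin 3) (Fin 3) K :=
  !![bt K x.a, bt K x.b, bt K x.c; bt K x.d, bt K x.e, bt K x.f; bt K x.g, bt K x.h, bt K x.i]

theorem two_zero (hK : ∀ t : K, t = 0 ∨ t = 1) : (1 : K) + 1 = 0 := by
  rcases hK (1 + 1) with h | h
  · exact h
  · exact absurd (add_left_cancel (a := (1 : K)) (by rw [h, add_zero])) one_ne_zero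

theorem bt_xor (h2 : (1 : K) + 1 = 0) (a b : Bool) : bt K (xor a b) = bt K a + bt K b := by
  cases a <;> cases b <;> simp [bt, h2]

theorem bt_and (a b : Bool) : bt K (a && b) = bt K a * bt K b := by
  cases a <;> cases b <;> simp [bt]

theorem M9.toM_mul (h2 : (1 : K) + 1 = 0) (x y : M9) : (x.mul y).toM K = x.toM K * y.toM K := by
  ext i j
  fin_cases i <;> fin_cases j <;>
    simp [M9.toM, M9.mul, bt_xor h2, bt_and, Matrix.mul_apply, Fin.sum_univ_three] <;> ring

theorem M9.det_toM (h2 : (1 : K) + 1 = 0) (x : M9) : (x.toM K).det = bt K x.det := by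
  have hn : ∀ t : K, -t = t := fun t => by linear_combination (-t) * h2
  rw [Matrix.det_fin_three]
  simp only [M9.toM, M9.det, bt_xor h2, bt_and, Matrix.of_apply, Matrix.cons_val', Matrix.cons_val_zero, Matrix.cons_val_one, Matrix.cons_val,
    sub_eq_add_neg, hn]
  ring

theorem M9.toM_adj (h2 : (1 : K) + 1 = 0) (x : M9) (hx : x.det = true) : x.toM K * x.adj.toM K = 1 := by
  have h1 := M9.det_toM (K := K) h2 x
  rw [hx] at h1
  have h3 : bt K true = 1 := rfl
  rw [h3] at h1
  have hn : ∀ t : K, -t = t := fun t => by linear_combination (-t) * h2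
  have h4 : x.adj.toM K = (x.toM K).adjugate := by
    rw [Matrix.adjugate_fin_three]
    simp only [M9.toM, M9.adj, bt_xor h2, bt_and, Matrix.of_apply, Matrix.cons_val', Matrix.cons_val_zero, Matrix.cons_val_one, Matrix.cons_val,
      sub_eq_add_neg, hn]
  rw [h4, Matrix.mul_adjugate, h1, one_smul]

/-- the element of `SL_3` -/
def M9.sl (h2 : (1 : K) + 1 = 0) (x : M9) (hx : x.det = true) : Matrix.SpecialLinearGroup (Fin 3) K :=
  ⟨x.toM K, by rw [M9.det_toM h2, hx]; rfl⟩

theorem M9.sl_inv (h2 : (1 : K) + 1 = 0) (x : M9) (hx : x.det = true) : ((M9.sl h2 x hx)⁻¹).1 = x.adj.toM K := by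
  have h1 : ((M9.sl h2 x hx)⁻¹).1 * (M9.sl h2 x hx).1 = 1 := congrArg Subtype.val (inv_mul_cancel (M9.sl h2 x hx))
  have h3 : (M9.sl h2 x hx).1 * x.adj.toM K = 1 := M9.toM_adj h2 x hx
  calc ((M9.sl h2 x hx)⁻¹).1 = ((M9.sl h2 x hx)⁻¹).1 * ((M9.sl h2 x hx).1 * x.adj.toM K) := by rw [h3, Matrix.mul_one]
    _ = x.adj.toM K := by rw [← Matrix.mul_assoc, h1, Matrix.one_mul]

theorem M9.exists_eq (hK : ∀ t : K, t = 0 ∨ t = 1) (m : Matrix.SpecialLinearGroup (Fin 3) K) : ∃ x : M9, x.det = true ∧ m.1 = x.toM K := by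
  have hb : ∀ t : K, ∃ b : Bool, bt K b = t := fun t => by
    rcases hK t with h | h
    · exact ⟨false, h.symm⟩
    · exact ⟨true, h.symm⟩
  choose b hb using hb
  have h2 := two_zero hK
  obtain ⟨x, hx⟩ : ∃ x : M9, m.1 = x.toM K := by
    refine ⟨⟨b (m.1 0 0), b (m.1 0 1), b (m.1 0 2), b (m.1 1 0), b (m.1 1 1), b (m.1 1 2), b (m.1 2 0), b (m.1 2 1), b (m.1 2 2)⟩, ?_⟩
    ext i j
    fin_cases i <;> fin_cases j <;> simp [M9.toM, hb]
  refine ⟨x, ?_, hx⟩
  have h1 := m.2
  rw [hx, M9.det_toM h2] at h1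
  rcases hd : x.det with _ | _
  · rw [hd] at h1
    exact absurd h1 zero_ne_one
  · rfl

private theorem chk_of (f : M9 → Bool) (h : ∀ a b c d e f' g h i : Bool, M9.det ⟨a, b, c, d, e, f', g, h, i⟩ = true → f ⟨a, b, c, d, e, f', g, h, i⟩ = true)
    (x : M9) (hx : x.det = true) : f x = true := h _ _ _ _ _ _ _ _ _ hx

private theorem val_mul (A B : Matrix.SpecialLinearGroup (Fin 3) K) : (A * B).1 = A.1 * B.1 := rfl

private theorem el_val (i j : Fin 3) (h : i ≠ j) (t : K) : (el K i j t : Matrix.SpecialLinearGroup (Fin 3) K).1 = Matrix.transvection i j t := by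
  unfold el
  rw [dif_pos h]

/-- an element of order 7, with characteristic polynomial `x ^ 3 + x + 1` -/
def B7 (K : Type*) [Field K] : Matrix.SpecialLinearGroup (Fin 3) K := el K 0 1 1 * el K 1 2 1 * el K 2 0 1

/-- an element of order 3 -/
def C3 (K : Type*) [Field K] : Matrix.SpecialLinearGroup (Fin 2) K := el K 0 1 1 * el K 1 0 1

private theorem B7_val (h2 : (1 : K) + 1 = 0) : (B7 K).1 = b7.toM K := by
  unfold B7
  rw [val_mul, val_mul, el_val _ _ (by decide), el_val _ _ (by decide), el_val _ _ (by decide)]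
  ext i j
  fin_cases i <;> fin_cases j <;> simp [M9.toM, b7, bt, Matrix.transvection, Matrix.single, Matrix.mul_apply, Fin.sum_univ_three, Matrix.one_apply, h2]

private theorem B7_eq (h2 : (1 : K) + 1 = 0) : B7 K = M9.sl h2 b7 rfl := Subtype.ext (B7_val h2)

private theorem B7_inv (h2 : (1 : K) + 1 = 0) : ((B7 K)⁻¹).1 = c7.toM K := by
  rw [B7_eq h2, M9.sl_inv]
  rfl

/-- (F1) -/
theorem exists_par (hK : ∀ t : K, t = 0 ∨ t = 1) (m : Matrix.SpecialLinearGroup (Fin 3) K) :
    ∃ (P : Matrix.SpecialLinearGroup (Fin 3) K) (t a b c d : K),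
      P * m * P⁻¹ = el K 0 2 a * el K 1 2 b * (el K 0 1 t * el K 1 0 t) * (el K 2 0 c * el K 2 1 d) := by
  have h2 := two_zero hK
  obtain ⟨x, hx, hm⟩ := M9.exists_eq hK m
  have h1 : chk1 x = true := chk_of _ chk1_all x hx
  unfold chk1 at h1
  rw [List.any_eq_true] at h1
  obtain ⟨p, -, hp⟩ := h1
  rw [Bool.and_eq_true] at hp
  obtain ⟨hp, hb⟩ := hp
  obtain ⟨y, hy⟩ : ∃ y : M9, y = (p.mul x).mul p.adj := ⟨_, rfl⟩
  rw [← hy] at hb
  have h3 : (M9.sl h2 p hp * m * (M9.sl h2 p hp)⁻¹).1 = y.toM K := by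
    rw [val_mul, val_mul, M9.sl_inv, hm, hy, M9.toM_mul h2, M9.toM_mul h2]
    rfl
  refine ⟨M9.sl h2 p hp, bt K (xor y.b (y.c && y.h)), bt K y.c, bt K y.f, bt K y.g, bt K y.h, Subtype.ext ?_⟩
  rw [h3]
  unfold blk at hb
  simp only [Bool.and_eq_true, beq_iff_eq] at hb
  obtain ⟨⟨⟨hi, hd⟩, he⟩, ha⟩ := hb
  simp only [val_mul]
  rw [el_val _ _ (by decide), el_val _ _ (by decide), el_val _ _ (by decide), el_val _ _ (by decide), el_val _ _ (by decide), el_val _ _ (by decide)]
  have hd' := congrArg (bt K) hd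
  have he' := congrArg (bt K) he
  have ha' := congrArg (bt K) ha
  have hi' := congrArg (bt K) hi
  have hnot : ∀ b : Bool, bt K (!b) = 1 + bt K b := fun b => by cases b <;> simp [bt, h2]
  have hsq : bt K y.b * bt K y.b = bt K y.b := by cases y.b <;> simp [bt]
  rw [hnot] at ha'
  simp only [bt_xor h2, bt_and] at hd' he' ha'
  have ht : bt K true = 1 := rfl
  rw [ht] at he' hi'
  obtain ⟨t, htt⟩ : ∃ t : K, t = bt K y.b + bt K y.c * bt K y.h := ⟨_, rfl⟩
  have hts : t * t = t := by rcases hK t with h | h <;> rw [h] <;> ring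
  have hn : ∀ t : K, t + t = 0 := fun t => by linear_combination t * h2
  rw [bt_xor h2, bt_and, ← htt]
  rw [← htt] at hd' ha'
  ext i j
  fin_cases i <;> fin_cases j <;> simp [M9.toM, Matrix.transvection, Matrix.single, Matrix.mul_apply, Fin.sum_univ_three, Matrix.one_apply]
  · linear_combination ha' - hts - hn (bt K y.c * bt K y.g)
  · linear_combination -htt - hn (bt K y.c * bt K y.h)
  · linear_combination hd' - hn (bt K y.f * bt K y.g)
  · linear_combination he' - hn (bt K y.f * bt K y.h)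
  · exact hi'

private theorem conj_of {G : Type*} [Group G] {q y w : G} (h : y * q = q * w) : y = q * w * q⁻¹ := by
  rw [← h, mul_inv_cancel_right]

/-- the quotient of two elements -/
private theorem quo (h2 : (1 : K) + 1 = 0) {p x b : M9} {m w : Matrix.SpecialLinearGroup (Fin 3) K} (hp : p.det = true) (hm : m.1 = x.toM K) (hw : w.1 = b.toM K) :
    ((M9.sl h2 p hp * w * (M9.sl h2 p hp)⁻¹)⁻¹ * m).1 = ((((p.mul b).mul p.adj).adj).mul x).toM K := by
  obtain ⟨P, hP⟩ : ∃ P, P = M9.sl h2 p hp := ⟨_, rfl⟩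
  have hPv : P.1 = p.toM K := by rw [hP]; rfl
  have hPi : (P⁻¹).1 = p.adj.toM K := by rw [hP]; exact M9.sl_inv h2 p hp
  obtain ⟨z, hz⟩ : ∃ z : M9, z = (p.mul b).mul p.adj := ⟨_, rfl⟩
  have hzM : (P * w * P⁻¹).1 = z.toM K := by
    rw [val_mul, val_mul, hPv, hPi, hw, hz, M9.toM_mul h2, M9.toM_mul h2]
  have hzd : z.det = true := by
    have h3 := (P * w * P⁻¹).2
    rw [hzM, M9.det_toM h2] at h3
    rcases hd : z.det with _ | _
    · rw [hd] at h3
      exact absurd h3 zero_ne_one
    · rfl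
  have hzi : ((P * w * P⁻¹)⁻¹).1 = z.adj.toM K := by
    have h3 : P * w * P⁻¹ = M9.sl h2 z hzd := Subtype.ext hzM
    rw [h3]
    exact M9.sl_inv h2 z hzd
  rw [← hP, ← hz, val_mul, hzi, hm, M9.toM_mul h2]

private theorem conj_chk (h2 : (1 : K) + 1 = 0) {y q b : M9} {Y w : Matrix.SpecialLinearGroup (Fin 3) K} (hY : Y.1 = y.toM K) (hw : w.1 = b.toM K) (hq : q.det = true)
    (h : M9.eqb (y.mul q) (q.mul b) = true) : Y = M9.sl h2 q hq * w * (M9.sl h2 q hq)⁻¹ := by
  refine conj_of (Subtype.ext ?_)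
  have h5 := congrArg (M9.toM K) (M9.eq_of_eqb h)
  rw [M9.toM_mul h2, M9.toM_mul h2] at h5
  rw [val_mul, val_mul, hY, hw]
  exact h5

/-- (F2) In `SL_3` over the field with two elements every element is a product `P w P⁻¹ Q w Q⁻¹` or `P w P⁻¹ Q w⁻¹ Q⁻¹`, `w` of order 7. -/
theorem prod7 (hK : ∀ t : K, t = 0 ∨ t = 1) (m : Matrix.SpecialLinearGroup (Fin 3) K) :
    ∃ P Q, m = P * B7 K * P⁻¹ * (Q * B7 K * Q⁻¹) ∨ m = P * B7 K * P⁻¹ * (Q * (B7 K)⁻¹ * Q⁻¹) := by
  have h2 := two_zero hK
  obtain ⟨x, hx, hm⟩ := M9.exists_eq hK m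
  have h1 : chk2 x = true := chk_of _ chk2_all x hx
  unfold chk2 at h1
  rw [List.any_eq_true] at h1
  obtain ⟨p, -, hp⟩ := h1
  rw [Bool.and_eq_true] at hp
  obtain ⟨hp, hq⟩ := hp
  have hy := quo h2 hp hm (B7_val h2)
  have hmm : m = M9.sl h2 p hp * B7 K * (M9.sl h2 p hp)⁻¹ * ((M9.sl h2 p hp * B7 K * (M9.sl h2 p hp)⁻¹)⁻¹ * m) := by rw [mul_inv_cancel_left]
  dsimp only at hq
  rw [Bool.or_eq_true, Bool.and_eq_true, Bool.and_eq_true] at hq
  rcases hq with ⟨hq, he⟩ | ⟨hq, he⟩
  · refine ⟨M9.sl h2 p hp, M9.sl h2 _ hq, Or.inl ?_⟩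
    rw [← conj_chk h2 hy (B7_val h2) hq he]
    exact hmm
  · refine ⟨M9.sl h2 p hp, M9.sl h2 _ hq, Or.inr ?_⟩
    rw [← conj_chk h2 hy (B7_inv h2) hq he]
    exact hmm

/-- (F3) -/
theorem real7 (hK : ∀ t : K, t = 0 ∨ t = 1) :
    ∃ Q, el K 1 0 1 * el K 2 1 1 * el K 0 2 1 = Q * (B7 K)⁻¹ * Q⁻¹ := by
  have h2 := two_zero hK
  refine ⟨M9.sl h2 ⟨false, false, true, false, true, true, true, true, false⟩ rfl, conj_chk h2 (y := ⟨true, false, true, true, true, true, false, true, true⟩) ?_ (B7_inv h2) rfl rfl⟩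
  rw [val_mul, val_mul, el_val _ _ (by decide), el_val _ _ (by decide), el_val _ _ (by decide)]
  ext i j
  fin_cases i <;> fin_cases j <;> simp [M9.toM, bt, Matrix.transvection, Matrix.single, Matrix.mul_apply, Fin.sum_univ_three, Matrix.one_apply]

/-- In `SL_3` over the field with two elements every element is a product of two conjugates of an element of order three. -/
theorem prod_three (hK : ∀ t : K, t = 0 ∨ t = 1) {w : Matrix.SpecialLinearGroup (Fin 3) K} (hw : w.1 = !![0, 0, 1; 1, 0, 0; 0, 1, 0])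
    (m : Matrix.SpecialLinearGroup (Fin 3) K) : ∃ P Q, m = P * w * P⁻¹ * (Q * w * Q⁻¹) := by
  have h2 := two_zero hK
  obtain ⟨x, hx, hm⟩ := M9.exists_eq hK m
  have hw' : w.1 = w3.toM K := hw
  have h1 : chk3 x = true := chk_of _ chk3_all x hx
  unfold chk3 at h1
  rw [List.any_eq_true] at h1
  obtain ⟨p, -, hp⟩ := h1
  rw [Bool.and_eq_true] at hp
  obtain ⟨hp, hq⟩ := hp
  have hy := quo h2 hp hm hw'
  dsimp only at hq
  rw [List.any_eq_true] at hq
  obtain ⟨v, -, hq⟩ := hq
  rw [Bool.and_eq_true] at hq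
  obtain ⟨hq, he⟩ := hq
  refine ⟨M9.sl h2 p hp, M9.sl h2 _ hq, ?_⟩
  rw [← conj_chk h2 hy hw' hq he, mul_inv_cancel_left]

private theorem el2_sq (h2 : (1 : K) + 1 = 0) (i j : Fin 2) (h : i ≠ j) : (el K i j 1 : Matrix.SpecialLinearGroup (Fin 2) K) * el K i j 1 = 1 := by
  apply Subtype.ext
  show (el K i j 1 : Matrix.SpecialLinearGroup (Fin 2) K).1 * (el K i j 1 : Matrix.SpecialLinearGroup (Fin 2) K).1 = 1
  have h1 : (el K i j 1 : Matrix.SpecialLinearGroup (Fin 2) K).1 = Matrix.transvection i j 1 := by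
    unfold el
    rw [dif_pos h]
  rw [h1, Matrix.transvection_mul_transvection_same i j h, h2, Matrix.transvection_zero]

private theorem el2_zero (i j : Fin 2) : (el K i j 0 : Matrix.SpecialLinearGroup (Fin 2) K) = 1 := by
  unfold el
  split_ifs with h
  · exact Subtype.ext (Matrix.transvection_zero i j)
  · rfl

/-- (F4) -/
theorem prod3 (hK : ∀ t : K, t = 0 ∨ t = 1) (t : K) :
    (∃ P Q, el K 0 1 t * el K 1 0 t = P * C3 K * P⁻¹ * (Q * C3 K * Q⁻¹)) ∧ ∃ P Q, el K 0 1 t * el K 1 0 t = P * C3 K * P⁻¹ * (Q * (C3 K)⁻¹ * Q⁻¹) := by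
  have h2 := two_zero hK
  obtain ⟨u, hu⟩ : ∃ u : Matrix.SpecialLinearGroup (Fin 2) K, u = el K 0 1 1 := ⟨_, rfl⟩
  obtain ⟨v, hv⟩ : ∃ v : Matrix.SpecialLinearGroup (Fin 2) K, v = el K 1 0 1 := ⟨_, rfl⟩
  have huu : u * u = 1 := by rw [hu]; exact el2_sq h2 0 1 (by decide)
  have hvv : v * v = 1 := by rw [hv]; exact el2_sq h2 1 0 (by decide)
  have hui : u⁻¹ = u := inv_eq_of_mul_eq_one_left huu
  have hvi : v⁻¹ = v := inv_eq_of_mul_eq_one_left hvv
  have hC : C3 K = u * v := by rw [hu, hv]; rfl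
  have hCi : (C3 K)⁻¹ = v * u := by rw [hC, _root_.mul_inv_rev, hui, hvi]
  have hc : u * C3 K * u⁻¹ = (C3 K)⁻¹ := by
    rw [hCi, hC, hui, ← mul_assoc, huu, one_mul]
  have h3 : C3 K * C3 K * C3 K = 1 := by
    apply Subtype.ext
    show (C3 K).1 * (C3 K).1 * (C3 K).1 = 1
    have h4 : (C3 K).1 = !![0, 1; 1, 1] := by
      have h5 : (C3 K).1 = (el K 0 1 1 : Matrix.SpecialLinearGroup (Fin 2) K).1 * (el K 1 0 1 : Matrix.SpecialLinearGroup (Fin 2) K).1 := rfl
      rw [h5]
      unfold el
      rw [dif_pos (by decide), dif_pos (by decide)]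
      ext i j
      fin_cases i <;> fin_cases j <;> simp [Matrix.transvection, Matrix.single, Matrix.mul_apply, Fin.sum_univ_two, Matrix.one_apply, h2]
    rw [h4]
    ext i j
    fin_cases i <;> fin_cases j <;> simp [Matrix.mul_apply, Fin.sum_univ_two, h2]
  have h4 : C3 K = (C3 K)⁻¹ * (C3 K)⁻¹ := by
    rw [eq_inv_mul_iff_mul_eq, eq_inv_iff_mul_eq_one]
    exact h3
  rcases hK t with rfl | rfl
  · rw [el2_zero, el2_zero, one_mul]
    refine ⟨⟨1, u, ?_⟩, 1, 1, ?_⟩
    · rw [hc]
      group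
    · group
  · have h5 : (el K 0 1 1 * el K 1 0 1 : Matrix.SpecialLinearGroup (Fin 2) K) = C3 K := rfl
    rw [h5]
    refine ⟨⟨u, u, ?_⟩, u, 1, ?_⟩
    · rw [hc]
      exact h4
    · rw [hc, one_mul, inv_one, mul_one]
      exact h4

end Pool.Agent.ThW
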