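import Pool.Agent.ThR.Main6

/-! # No fixed vectors for three orthogonal families (MP_3d54b6_al) -/

namespace Pool.Agent.ThW

open ThE ThK ThR

variable {n : ℕ} {K : Type*} [Field K] {L : Type*} [Field L] {l : Vec n → ℤ} {m m' m'' : ℕ} {G : Type*} [Group G]

/-- three homomorphisms with commuting images -/
theorem exists_three {A B C H : Type*} [Group A] [Group B] [Group C] [Group H] (f : A →* H) (g : B →* H) (j : C →* H) (c1 : ∀ a b, f a * g b = g b * f a)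
    (c2 : ∀ a b, f a * j b = j b * f a) (c3 : ∀ a b, g a * j b = j b * g a) : ∃ Φ : (A × B) × C →* H, ∀ a, Φ a = f a.1.1 * g a.1.2 * j a.2 := by
  obtain ⟨Φ12, hΦ12⟩ : ∃ Φ : A × B →* H, ∀ a, Φ a = f a.1 * g a.2 := ⟨MonoidHom.noncommCoprod f g c1, fun a => rfl⟩
  have c4 : ∀ a b, Commute (Φ12 a) (j b) := fun a b => by
    rw [hΦ12]
    exact Commute.mul_left (c2 _ _) (c3 _ _)
  refine ⟨MonoidHom.noncommCoprod Φ12 j c4, fun a => ?_⟩
  rw [← hΦ12]
  rfl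

/-- NO FIXED VECTOR, three orthogonal families -/
theorem no_fix3 {k : ℤ} (hn : n ≤ 8) (hl : Addl l) (hk : k ≠ 0) (ι : K →+* L) {u : Fin (m + 1) → Vec n} {u' : Fin (m' + 1) → Vec n} {u'' : Fin (m'' + 1) → Vec n}
    (hu : Fam l u) (hu' : Fam l u') (hu'' : Fam l u'') (o1 : Orth u u') (o2 : Orth u u'') (o3 : Orth u' u'')
    {R : Matrix.SpecialLinearGroup (Fin (m + 1)) K →* (Module.End K (Rk l k → K))ˣ} (hR : IsRep R u)
    {R' : Matrix.SpecialLinearGroup (Fin (m' + 1)) K →* (Module.End K (Rk l k → K))ˣ} (hR' : IsRep R' u')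
    {R'' : Matrix.SpecialLinearGroup (Fin (m'' + 1)) K →* (Module.End K (Rk l k → K))ˣ} (hR'' : IsRep R'' u'')
    {M : Matrix.SpecialLinearGroup (Fin (m + 1)) K} {g : Matrix.SpecialLinearGroup (Fin (m + 1)) L} {D : Fin (m + 1) → Lˣ} (hD : ∏ i, D i = 1)
    (hM : Matrix.SpecialLinearGroup.map ι M = g * dg D hD * g⁻¹)
    {M' : Matrix.SpecialLinearGroup (Fin (m' + 1)) K} {g' : Matrix.SpecialLinearGroup (Fin (m' + 1)) L} {D' : Fin (m' + 1) → Lˣ} (hD' : ∏ i, D' i = 1)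
    (hM' : Matrix.SpecialLinearGroup.map ι M' = g' * dg D' hD' * g'⁻¹)
    {M'' : Matrix.SpecialLinearGroup (Fin (m'' + 1)) K} {g'' : Matrix.SpecialLinearGroup (Fin (m'' + 1)) L} {D'' : Fin (m'' + 1) → Lˣ} (hD'' : ∏ i, D'' i = 1)
    (hM'' : Matrix.SpecialLinearGroup.map ι M'' = g'' * dg D'' hD'' * g''⁻¹)
    (hw : ∀ v : Rk l k, wt u D v.1 * wt u' D' v.1 * wt u'' D'' v.1 ≠ 1) {f : Rk l k → K} (hf : (R M * R' M' * R'' M'').1 f = f) : f = 0 := by
  obtain ⟨R1, hR1⟩ := exists_rep (K := L) (k := k) hn hl hk hu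
  obtain ⟨R2, hR2⟩ := exists_rep (K := L) (k := k) hn hl hk hu'
  obtain ⟨R3, hR3⟩ := exists_rep (K := L) (k := k) hn hl hk hu''
  have h1 : (R3 (Matrix.SpecialLinearGroup.map ι M'')).1 (fun w => ι (f w)) = fun w => ι ((R'' M'').1 f w) := by
    funext w
    exact rep_map ι hu'' hR'' hR3 M'' _ w
  have h2 : (R2 (Matrix.SpecialLinearGroup.map ι M')).1 (fun w => ι ((R'' M'').1 f w)) = fun w => ι ((R' M').1 ((R'' M'').1 f) w) := by
    funext w
    exact rep_map ι hu' hR' hR2 M' _ w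
  have h3 : (R1 (Matrix.SpecialLinearGroup.map ι M)).1 (fun w => ι ((R' M').1 ((R'' M'').1 f) w)) = fun w => ι ((R M).1 ((R' M').1 ((R'' M'').1 f)) w) := by
    funext w
    exact rep_map ι hu hR hR1 M _ w
  have h4 : (R M).1 ((R' M').1 ((R'' M'').1 f)) = f := hf
  obtain ⟨Φ, hΦ⟩ := exists_three R1 R2 R3 (IsRep.comm hn hl hk hu hu' o1 hR1 hR2) (IsRep.comm hn hl hk hu hu'' o2 hR1 hR3) (IsRep.comm hn hl hk hu' hu'' o3 hR2 hR3)
  have h5 : (Φ ((Matrix.SpecialLinearGroup.map ι M, Matrix.SpecialLinearGroup.map ι M'), Matrix.SpecialLinearGroup.map ι M'')).1 (fun w => ι (f w)) = fun w => ι (f w) := by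
    rw [hΦ]
    change (R1 (Matrix.SpecialLinearGroup.map ι M)).1 ((R2 (Matrix.SpecialLinearGroup.map ι M')).1
      ((R3 (Matrix.SpecialLinearGroup.map ι M'')).1 (fun w => ι (f w)))) = _
    rw [h1, h2, h3, h4]
  have hQ : ((Matrix.SpecialLinearGroup.map ι M, Matrix.SpecialLinearGroup.map ι M'), Matrix.SpecialLinearGroup.map ι M'') =
      ((g, g'), g'') * ((dg D hD, dg D' hD'), dg D'' hD'') * ((g, g'), g'')⁻¹ := by
    rw [hM, hM', hM'']
    rfl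
  rw [hQ, map_mul, map_mul, map_inv] at h5
  generalize hq : Φ ((g, g'), g'') = q at h5
  have h6 : (Φ ((dg D hD, dg D' hD'), dg D'' hD'')).1 ((q⁻¹).1 (fun w => ι (f w))) = (q⁻¹).1 (fun w => ι (f w)) := by
    have h7 := congrArg (fun x => (q⁻¹).1 x) h5
    change (q⁻¹ * (q * Φ ((dg D hD, dg D' hD'), dg D'' hD'') * q⁻¹)).1 (fun w => ι (f w)) = _ at h7
    have h8 : q⁻¹ * (q * Φ ((dg D hD, dg D' hD'), dg D'' hD'') * q⁻¹) = Φ ((dg D hD, dg D' hD'), dg D'' hD'') * q⁻¹ := by group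
    rw [h8] at h7
    exact h7
  have h9 : (q⁻¹).1 (fun w => ι (f w)) = 0 := by
    funext v
    have h10 := congrFun h6 v
    rw [hΦ] at h10
    change (R1 (dg D hD)).1 ((R2 (dg D' hD')).1 ((R3 (dg D'' hD'')).1 ((q⁻¹).1 (fun w => ι (f w))))) v = _ at h10
    rw [rep_dg hn hl hk hu hR1, rep_dg hn hl hk hu' hR2, rep_dg hn hl hk hu'' hR3] at h10
    by_contra hne
    refine hw v (Units.ext ?_)
    rw [Units.val_mul, Units.val_mul, Units.val_one]
    refine mul_right_cancel₀ (b := (q⁻¹).1 (fun w => ι (f w)) v) hne ?_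
    rw [one_mul, mul_assoc, mul_assoc]
    exact h10
  have h11 : (fun w => ι (f w)) = (0 : Rk l k → L) := by
    have h12 : q.1 ((q⁻¹).1 (fun w => ι (f w))) = fun w => ι (f w) := by
      change (q * q⁻¹).1 (fun w => ι (f w)) = _
      rw [mul_inv_cancel]
      rfl
    rw [← h12, h9, map_zero]
  funext w
  have h13 := congrFun h11 w
  exact (map_eq_zero ι).1 h13

/-- three orthogonal families: `1 - b` is surjective on the sections -/
theorem sur_of_three {k : ℕ} (hn : n = 6 ∨ n = 7 ∨ n = 8) (hl : Addl l) (hk : 1 ≤ k) {x : Root n → K → G} (h : Stb K n x) (ι : K →+* L)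
    {u : Fin (m + 1) → Vec n} {u' : Fin (m' + 1) → Vec n} {u'' : Fin (m'' + 1) → Vec n}
    (hu : Fam l u) (hu' : Fam l u') (hu'' : Fam l u'') (o1 : Orth u u') (o2 : Orth u u'') (o3 : Orth u' u'')
    {F : Matrix.SpecialLinearGroup (Fin (m + 1)) K →* G} (hF : HomF x u F) {F' : Matrix.SpecialLinearGroup (Fin (m' + 1)) K →* G} (hF' : HomF x u' F')
    {F'' : Matrix.SpecialLinearGroup (Fin (m'' + 1)) K →* G} (hF'' : HomF x u'' F'')
    {M : Matrix.SpecialLinearGroup (Fin (m + 1)) K} {g : Matrix.SpecialLinearGroup (Fin (m + 1)) L} {D : Fin (m + 1) → Lˣ} (hD : ∏ i, D i = 1)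
    (hM : Matrix.SpecialLinearGroup.map ι M = g * dg D hD * g⁻¹)
    {M' : Matrix.SpecialLinearGroup (Fin (m' + 1)) K} {g' : Matrix.SpecialLinearGroup (Fin (m' + 1)) L} {D' : Fin (m' + 1) → Lˣ} (hD' : ∏ i, D' i = 1)
    (hM' : Matrix.SpecialLinearGroup.map ι M' = g' * dg D' hD' * g'⁻¹)
    {M'' : Matrix.SpecialLinearGroup (Fin (m'' + 1)) K} {g'' : Matrix.SpecialLinearGroup (Fin (m'' + 1)) L} {D'' : Fin (m'' + 1) → Lˣ} (hD'' : ∏ i, D'' i = 1)
    (hM'' : Matrix.SpecialLinearGroup.map ι M'' = g'' * dg D'' hD'' * g''⁻¹)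
    (hw : ∀ v : Rk l (k : ℤ), wt u D v.1 * wt u' D' v.1 * wt u'' D'' v.1 ≠ 1) : Sur x l (F M * F' M' * F'' M'') k := by
  have hn8 : n ≤ 8 := by omega
  have hk0 : (k : ℤ) ≠ 0 := by omega
  have := finite_Rk hn8 l (k : ℤ)
  let _ : Fintype (Rk l (k : ℤ)) := Fintype.ofFinite _
  obtain ⟨A, _, π, hπ⟩ := exists_pi hl h hk
  obtain ⟨R, hR⟩ := exists_rep (K := K) hn8 hl hk0 hu
  obtain ⟨R', hR'⟩ := exists_rep (K := K) hn8 hl hk0 hu'
  obtain ⟨R'', hR''⟩ := exists_rep (K := K) hn8 hl hk0 hu''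
  refine sur_of_act h hπ (T := R M * R' M' * R'' M'')
    (((Act_rep hn8 hl hk h hπ hu hF hR M).mul (Act_rep hn8 hl hk h hπ hu' hF' hR' M')).mul (Act_rep hn8 hl hk h hπ hu'' hF'' hR'' M'')) fun f hf => ?_
  exact no_fix3 hn8 hl hk0 ι hu hu' hu'' o1 o2 o3 hR hR' hR'' hD hM hD' hM' hD'' hM'' hw hf

/-- the same for both systems -/
theorem sur_three {k : ℕ} (hn : n = 6 ∨ n = 7 ∨ n = 8) (hl : Addl l) (hk : 1 ≤ k) {x : Root n → K → G} (h : Stb K n x) (ι : K →+* L)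
    {u : Fin (m + 1) → Vec n} {u' : Fin (m' + 1) → Vec n} {u'' : Fin (m'' + 1) → Vec n}
    (hu : Fam l u) (hu' : Fam l u') (hu'' : Fam l u'') (o1 : Orth u u') (o2 : Orth u u'') (o3 : Orth u' u'')
    {F : Matrix.SpecialLinearGroup (Fin (m + 1)) K →* G} (hF : HomF x u F) {F' : Matrix.SpecialLinearGroup (Fin (m' + 1)) K →* G} (hF' : HomF x u' F')
    {F'' : Matrix.SpecialLinearGroup (Fin (m'' + 1)) K →* G} (hF'' : HomF x u'' F'')
    {M : Matrix.SpecialLinearGroup (Fin (m + 1)) K} {g : Matrix.SpecialLinearGroup (Fin (m + 1)) L} {D : Fin (m + 1) → Lˣ} (hD : ∏ i, D i = 1)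
    (hM : Matrix.SpecialLinearGroup.map ι M = g * dg D hD * g⁻¹)
    {M' : Matrix.SpecialLinearGroup (Fin (m' + 1)) K} {g' : Matrix.SpecialLinearGroup (Fin (m' + 1)) L} {D' : Fin (m' + 1) → Lˣ} (hD' : ∏ i, D' i = 1)
    (hM' : Matrix.SpecialLinearGroup.map ι M' = g' * dg D' hD' * g'⁻¹)
    {M'' : Matrix.SpecialLinearGroup (Fin (m'' + 1)) K} {g'' : Matrix.SpecialLinearGroup (Fin (m'' + 1)) L} {D'' : Fin (m'' + 1) → Lˣ} (hD'' : ∏ i, D'' i = 1)
    (hM'' : Matrix.SpecialLinearGroup.map ι M'' = g'' * dg D'' hD'' * g''⁻¹)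
    (hw : ∀ v : Vec n, IsR v → 1 ≤ l v → wt u D v * wt u' D' v * wt u'' D'' v ≠ 1) : Sur x l (F M * F' M' * F'' M'') k ∧ Sur (op x) l (F M * F' M' * F'' M'') k := by
  have hk1 : (1 : ℤ) ≤ (k : ℤ) := by exact_mod_cast hk
  have on : ∀ {p q : ℕ} {a : Fin p → Vec n} {b : Fin q → Vec n}, Orth a b → Orth (fun i => -a i) (fun i => -b i) := by
    intro p q a b ho i j c d hij hcd
    have e1 : -a i - -a j = -(a i - a j) := by abel
    have e2 : -b c - -b d = -(b c - b d) := by abel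
    show bf (-a i - -a j) (-b c - -b d) = 0
    rw [e1, e2, bf_neg_left, bf_neg_right, ho i j c d hij hcd, neg_zero, neg_zero]
  refine ⟨sur_of_three hn hl hk h ι hu hu' hu'' o1 o2 o3 hF hF' hF'' hD hM hD' hM' hD'' hM'' fun v => hw v.1 v.2.1 (by rw [v.2.2]; exact hk1),
    sur_of_three hn hl hk h.op ι (fam_neg hl hu) (fam_neg hl hu') (fam_neg hl hu'') (on o1) (on o2) (on o3) hF.op hF'.op hF''.op hD hM hD' hM' hD'' hM'' fun v => ?_⟩
  rw [wt_neg, wt_neg, wt_neg, ← mul_inv, ← mul_inv]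
  exact fun h0 => hw v.1 v.2.1 (by rw [v.2.2]; exact hk1) (inv_eq_one.mp h0)

end Pool.Agent.ThW
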