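import Pool.Agent.ThW.Cmb
import Pool.Agent.ThW.Tri
import Pool.Agent.ThW.F5
import Pool.Agent.ThK.Fin

/-! # `E_6` over the field with two elements (MP_3d54b6_al) -/

namespace Pool.Agent.ThW

open ThE ThK ThR
open ThF (uM r3 n0)

variable {K : Type*} [Field K] {G : Type*} [Group G]

theorem orth_AM : Orth uA uM := by
  unfold Orth
  decide +kernel

theorem one_of (hK : ∀ t : K, t = 0 ∨ t = 1) {c : K} (hc : c * c = 1) : c = 1 := by
  rcases hK c with h | h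
  · rw [h, mul_zero] at hc
    exact absurd hc zero_ne_one
  · exact h

/-- the root elements of a family -/
theorem F_el (hK : ∀ t : K, t = 0 ∨ t = 1) {m : ℕ} {x : Root 6 → K → G} {u : Fin m → Vec 6} {F : Matrix.SpecialLinearGroup (Fin m) K →* G} (hF : HomF x u F) {i j : Fin m} (hij : i ≠ j)
    {r : Root 6} (hr : r.1 = u i - u j) (a : K) : F (el K i j a) = x r a := by
  have hv : IsR (u i - u j) := hr ▸ r.2
  rw [hF i j hij, one_of hK (cf_sq u i j), one_mul, X_of x hv]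
  congr 1
  exact Subtype.ext hr.symm

omit [Field K] in
/-- a subgroup generated by root elements in the image of a homomorphism -/
theorem Sg_range {A : Type*} [Group A] (Φ : A →* G) {y : Root 6 → K → G} {p : Root 6 → Prop} (hg : ∀ r t, p r → ∃ a, y r t = Φ a) {u : G} (hu : u ∈ ThK.Sg y p) :
    ∃ a, u = Φ a := by
  have key : ThK.Sg y p ≤ Φ.range := by
    unfold ThK.Sg
    rw [Subgroup.closure_le]
    rintro _ ⟨r, t, hr, rfl⟩
    obtain ⟨a, ha⟩ := hg r t hr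
    exact ⟨a, ha.symm⟩
  obtain ⟨a, ha⟩ := key hu
  exact ⟨a, ha.symm⟩

theorem mem_x (hK : ∀ t : K, t = 0 ∨ t = 1) {m : ℕ} {x : Root 6 → K → G} {u : Fin m → Vec 6} {F : Matrix.SpecialLinearGroup (Fin m) K →* G} (hF : HomF x u F) {i j : Fin m} (hij : i ≠ j)
    (hr : IsR (u i - u j)) {l : Vec 6 → ℤ} (hl : ((1 : ℕ) : ℤ) ≤ l (u i - u j)) (a : K) : F (el K i j a) ∈ Uk x l 1 := by
  rw [F_el hK hF hij (r := ⟨u i - u j, hr⟩) rfl]
  exact Subgroup.subset_closure ⟨⟨u i - u j, hr⟩, a, hl, rfl⟩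

theorem mem_op (hK : ∀ t : K, t = 0 ∨ t = 1) {m : ℕ} {x : Root 6 → K → G} {u : Fin m → Vec 6} {F : Matrix.SpecialLinearGroup (Fin m) K →* G} (hF : HomF x u F) {i j : Fin m} (hij : i ≠ j)
    (hr : IsR (u j - u i)) {l : Vec 6 → ℤ} (hl : ((1 : ℕ) : ℤ) ≤ l (u j - u i)) (a : K) : F (el K i j a) ∈ Uk (op x) l 1 := by
  rw [F_el hK hF hij (r := -(⟨u j - u i, hr⟩ : Root 6)) (by rw [neg_val]; show -(u j - u i) = _; abel)]
  exact Subgroup.subset_closure ⟨⟨u j - u i, hr⟩, a, hl, rfl⟩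

/-- the action of `n_0` on a family -/
theorem n0_el (hK : ∀ t : K, t = 0 ∨ t = 1) {x : Root 6 → K → G} (h : Stb K 6 x) {m : ℕ} {u u' : Fin m → Vec 6} {F F' : Matrix.SpecialLinearGroup (Fin m) K →* G}
    (hF : HomF x u F) (hF' : HomF x u' F') {i j : Fin m} (hij : i ≠ j) (hr : IsR (u i - u j)) (hs : -(ThF.sg (u i - u j)) = u' j - u' i) (a : K) :
    n0 x * F (el K i j a) * (n0 x)⁻¹ = F' (el K j i a) := by
  rw [F_el hK hF hij (r := ⟨u i - u j, hr⟩) rfl]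
  obtain ⟨c, hc, e⟩ := ThF.n0_conj h (⟨u i - u j, hr⟩ : Root 6)
  rw [e a, one_of hK hc, one_mul]
  exact (F_el hK hF' hij.symm (r := -ThF.sr (⟨u i - u j, hr⟩ : Root 6)) hs a).symm

/-- REALITY -/
theorem real_two (hK : ∀ t : K, t = 0 ∨ t = 1) {x : Root 6 → K → G} (h : Stb K 6 x) {FL : Matrix.SpecialLinearGroup (Fin 3) K →* G} (hL : HomF x uL FL)
    {FP : Matrix.SpecialLinearGroup (Fin 2) K →* G} (hP : HomF x uP FP) {FR : Matrix.SpecialLinearGroup (Fin 2) K →* G} (hR : HomF x uR FR) :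
    ∃ c : G, c * (FL (B7 K) * FP (C3 K) * FR (C3 K)) * c⁻¹ = (FL (B7 K) * FP (C3 K) * FR (C3 K))⁻¹ := by
  obtain ⟨Q, hQ⟩ := real7 hK
  have h2 : (1 : K) + 1 = 0 := by
    rcases hK (1 + 1) with e | e
    · exact e
    · exact absurd (add_eq_left.mp e) one_ne_zero
  have hn : (-1 : K) = 1 := by linear_combination -h2
  have eL : ∀ i j : Fin 3, i ≠ j → ∀ a, n0 x * FL (el K i j a) * (n0 x)⁻¹ = FL (el K j i a) := fun i j hij a =>
    n0_el hK h hL hL hij (fam_uL i j hij).1 (by revert i j; decide +kernel) a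
  have eP : ∀ i j : Fin 2, i ≠ j → ∀ a, n0 x * FP (el K i j a) * (n0 x)⁻¹ = FR (el K j i a) := fun i j hij a =>
    n0_el hK h hP hR hij (fam_uP i j hij).1 (by revert i j; decide +kernel) a
  have eR : ∀ i j : Fin 2, i ≠ j → ∀ a, n0 x * FR (el K i j a) * (n0 x)⁻¹ = FP (el K j i a) := fun i j hij a =>
    n0_el hK h hR hP hij (fam_uR i j hij).1 (by revert i j; decide +kernel) a
  have cm : ∀ a b : G, n0 x * (a * b) * (n0 x)⁻¹ = (n0 x * a * (n0 x)⁻¹) * (n0 x * b * (n0 x)⁻¹) := fun a b => by group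
  have s1 : n0 x * FL (B7 K) * (n0 x)⁻¹ = FL Q * (FL (B7 K))⁻¹ * (FL Q)⁻¹ := by
    rw [← map_inv, ← map_inv, ← map_mul, ← map_mul, ← hQ]
    unfold B7
    rw [map_mul, map_mul, cm, cm, eL 0 1 (by decide), eL 1 2 (by decide), eL 2 0 (by decide), ← map_mul, ← map_mul]
  have hC : el K 1 0 (1 : K) * el K 0 1 (1 : K) = (C3 K)⁻¹ := by
    unfold C3
    rw [mul_inv_rev, ThK.ud_inv _ _ (by decide), ThK.ud_inv _ _ (by decide), hn]
  have s2 : n0 x * FP (C3 K) * (n0 x)⁻¹ = (FR (C3 K))⁻¹ := by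
    rw [← map_inv, ← hC]
    unfold C3
    rw [map_mul, cm, eP 0 1 (by decide), eP 1 0 (by decide), ← map_mul]
  have s3 : n0 x * FR (C3 K) * (n0 x)⁻¹ = (FP (C3 K))⁻¹ := by
    rw [← map_inv, ← hC]
    unfold C3
    rw [map_mul, cm, eR 0 1 (by decide), eR 1 0 (by decide), ← map_mul]
  have cLP : ∀ a b, FL a * FP b = FP b * FL a := HomF.comm h orth_LP hL hP
  have cLR : ∀ a b, FL a * FR b = FR b * FL a := HomF.comm h orth_LR hL hR
  have cPR : ∀ a b, FP a * FR b = FR b * FP a := HomF.comm h orth_PR hP hR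
  refine ⟨(FL Q)⁻¹ * n0 x, ?_⟩
  have e1 : (FL Q)⁻¹ * n0 x * (FL (B7 K) * FP (C3 K) * FR (C3 K)) * ((FL Q)⁻¹ * n0 x)⁻¹ =
      (FL Q)⁻¹ * ((n0 x * FL (B7 K) * (n0 x)⁻¹) * (n0 x * FP (C3 K) * (n0 x)⁻¹) * (n0 x * FR (C3 K) * (n0 x)⁻¹)) * FL Q := by group
  rw [e1, s1, s2, s3]
  simp only [← map_inv]
  calc FL Q⁻¹ * (FL Q * FL (B7 K)⁻¹ * FL Q⁻¹ * FR (C3 K)⁻¹ * FP (C3 K)⁻¹) * FL Q
      = FL Q⁻¹ * FL Q * FL (B7 K)⁻¹ * FL Q⁻¹ * FR (C3 K)⁻¹ * (FP (C3 K)⁻¹ * FL Q) := by group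
    _ = FL Q⁻¹ * FL Q * FL (B7 K)⁻¹ * FL Q⁻¹ * (FR (C3 K)⁻¹ * FL Q) * FP (C3 K)⁻¹ := by rw [← cLP]; group
    _ = FL Q⁻¹ * FL Q * FL (B7 K)⁻¹ * (FL Q⁻¹ * FL Q) * FR (C3 K)⁻¹ * FP (C3 K)⁻¹ := by rw [← cLR]; group
    _ = FL (B7 K)⁻¹ * FR (C3 K)⁻¹ * FP (C3 K)⁻¹ := by rw [← map_mul, inv_mul_cancel, map_one, one_mul, mul_one]
    _ = FR (C3 K)⁻¹ * (FL (B7 K)⁻¹ * FP (C3 K)⁻¹) := by rw [cLR, mul_assoc]
    _ = FR (C3 K)⁻¹ * (FP (C3 K)⁻¹ * FL (B7 K)⁻¹) := by rw [cLP]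
    _ = (FL (B7 K) * FP (C3 K) * FR (C3 K))⁻¹ := by
      rw [mul_inv_rev, mul_inv_rev, map_inv, map_inv, map_inv]

/-- GAUSS STEP -/
theorem gauss_two (hK : ∀ t : K, t = 0 ∨ t = 1) {x : Root 6 → K → G} (h : Stb K 6 x) {FL : Matrix.SpecialLinearGroup (Fin 3) K →* G} (hL : HomF x uL FL)
    {FP : Matrix.SpecialLinearGroup (Fin 2) K →* G} (hP : HomF x uP FP) {FR : Matrix.SpecialLinearGroup (Fin 2) K →* G} (hR : HomF x uR FR) (z : G) :
    ∃ c : G, ∃ v ∈ Uk (op x) lq 1, ∃ (M : Matrix.SpecialLinearGroup (Fin 3) K) (s t : K), ∃ u ∈ Uk x lq 1,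
      c * z * c⁻¹ = v * (FL M * FP (el K 0 1 s * el K 1 0 s) * FR (el K 0 1 t * el K 1 0 t)) * u := by
  obtain ⟨F1, h1⟩ := exists_HomF h6 h famz_uA
  obtain ⟨F2, h2⟩ := exists_HomF h6 h famz_uM
  have c12 : ∀ a b, Commute (F1 a) (F2 b) := HomF.comm h orth_AM h1 h2
  obtain ⟨Φ, hΦ⟩ : ∃ Φ : Matrix.SpecialLinearGroup (Fin 3) K × Matrix.SpecialLinearGroup (Fin 3) K →* G, ∀ a, Φ a = F1 a.1 * F2 a.2 :=
    ⟨MonoidHom.noncommCoprod F1 F2 c12, fun a => rfl⟩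
  have hΦL : ∀ a, Φ a ∈ Lv x lz := fun a => by
    rw [hΦ]
    exact Subgroup.mul_mem _ (HomF.mem famz_uA h1 _) (HomF.mem famz_uM h2 _)
  have negl : ∀ r : Root 6, lz (-r).1 = -lz r.1 := fun r => by rw [neg_val]; exact addlz.neg _
  -- the roots of `lz`-level zero
  have zx : ∀ (r : Root 6) (t : K), lz r.1 = 0 → ∃ a, x r t = Φ a := by
    intro r t hr
    rcases lz_zero r.2 hr with ⟨i, j, hij, e⟩ | ⟨i, j, hij, e⟩
    · refine ⟨(el K i j t, 1), ?_⟩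
      rw [hΦ, map_one, mul_one]
      exact (F_el hK h1 hij e t).symm
    · refine ⟨(1, el K i j t), ?_⟩
      rw [hΦ, map_one, one_mul]
      exact (F_el hK h2 hij e t).symm
  have zo : ∀ (r : Root 6) (t : K), lz r.1 = 0 → ∃ a, op x r t = Φ a := by
    intro r t hr
    exact zx (-r) t (by rw [negl, hr, neg_zero])
  -- the roots of `lq`-level zero with `lz ≥ 1`
  have qx : ∀ (r : Root 6) (t : K), ((1 : ℕ) : ℤ) ≤ lz r.1 ∧ lq r.1 = 0 → ∃ a, x r t = FL a := by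
    rintro r t ⟨hr, hr0⟩
    obtain ⟨i, j, hij, e⟩ := (lz_pos r.2 hr).2 hr0
    exact ⟨el K i j t, (F_el hK hL hij e t).symm⟩
  have qo : ∀ (r : Root 6) (t : K), ((1 : ℕ) : ℤ) ≤ lz r.1 ∧ lq r.1 = 0 → ∃ a, op x r t = FL a := by
    rintro r t ⟨hr, hr0⟩
    obtain ⟨i, j, hij, e⟩ := (lz_pos r.2 hr).2 hr0
    exact ⟨el K j i t, (F_el hK hL hij.symm (r := -r) (by rw [neg_val, e]; abel) t).symm⟩
  -- the big cell
  choose th hth using fun i => exists_th h6 h (sr h6 i)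
  obtain ⟨c, v0, hv0, zz, u0, hu0, e0⟩ := (datE h6 h hth).tri z
  have hz1 : hz h6 x zz = 1 := by
    unfold hz
    refine List.prod_eq_one ?_
    intro g hg
    rw [List.mem_ofFn] at hg
    obtain ⟨i, rfl⟩ := hg
    have e : (zz i : K) = 1 := (hK _).resolve_left (zz i).ne_zero
    rw [e, ThK.hh_one h]
  rw [hz1, mul_one] at e0
  obtain ⟨v1, hv1, a1, ha1, rfl⟩ := Sg_split' (Stb.op h) addlz (fun r hr => lz_nonneg hr) hv0
  obtain ⟨a2, ha2, u1, hu1, rfl⟩ := Sg_split h addlz (fun r hr => lz_nonneg hr) hu0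
  obtain ⟨b1, rfl⟩ := Sg_range Φ (fun r t hr => zo r t hr.2) ha1
  obtain ⟨b2, rfl⟩ := Sg_range Φ (fun r t hr => zx r t hr.2) ha2
  obtain ⟨P, s, a, b, c', d, hP1⟩ := exists_par hK (b1 * b2).1
  obtain ⟨P', t, a', b', c'', d', hP2⟩ := exists_par hK (b1 * b2).2
  have hpo : Φ (P, P') ∈ Lv (op x) lz := by rw [Lv_op x addlz]; exact hΦL _
  have hv2 := Uk.conj_Lv h.op addlz le_rfl hpo hv1
  have hu2 := Uk.conj_Lv h addlz le_rfl (hΦL (P, P')) hu1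
  obtain ⟨v3, hv3, w1, hw1, ev⟩ := Sg_split' (Stb.op h) addlq (p := fun r => ((1 : ℕ) : ℤ) ≤ lz r.1) (fun r hr => (lz_pos r.2 hr).1) hv2
  obtain ⟨w2, hw2, u3, hu3, eu⟩ := Sg_split h addlq (p := fun r => ((1 : ℕ) : ℤ) ≤ lz r.1) (fun r hr => (lz_pos r.2 hr).1) hu2
  obtain ⟨M1, rfl⟩ := Sg_range FL qo hw1
  obtain ⟨M2, rfl⟩ := Sg_range FL qx hw2
  -- the middle part
  obtain ⟨α, hα, hαe⟩ : ∃ α, α ∈ Uk (op x) lq 1 ∧ Φ (el K 0 2 a * el K 1 2 b, el K 0 2 a' * el K 1 2 b') = α := by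
    refine ⟨_, ?_, rfl⟩
    rw [hΦ]
    show F1 (el K 0 2 a * el K 1 2 b) * F2 (el K 0 2 a' * el K 1 2 b') ∈ _
    rw [map_mul, map_mul]
    refine Subgroup.mul_mem _ (Subgroup.mul_mem _ ?_ ?_) (Subgroup.mul_mem _ ?_ ?_)
    · exact mem_op hK h1 (by decide) (by decide +kernel) (by decide +kernel) _
    · exact mem_op hK h1 (by decide) (by decide +kernel) (by decide +kernel) _
    · exact mem_op hK h2 (by decide) (by decide +kernel) (by decide +kernel) _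
    · exact mem_op hK h2 (by decide) (by decide +kernel) (by decide +kernel) _
  obtain ⟨γ, hγ, hγe⟩ : ∃ γ, γ ∈ Uk x lq 1 ∧ Φ (el K 2 0 c' * el K 2 1 d, el K 2 0 c'' * el K 2 1 d') = γ := by
    refine ⟨_, ?_, rfl⟩
    rw [hΦ]
    show F1 (el K 2 0 c' * el K 2 1 d) * F2 (el K 2 0 c'' * el K 2 1 d') ∈ _
    rw [map_mul, map_mul]
    refine Subgroup.mul_mem _ (Subgroup.mul_mem _ ?_ ?_) (Subgroup.mul_mem _ ?_ ?_)
    · exact mem_x hK h1 (by decide) (by decide +kernel) (by decide +kernel) _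
    · exact mem_x hK h1 (by decide) (by decide +kernel) (by decide +kernel) _
    · exact mem_x hK h2 (by decide) (by decide +kernel) (by decide +kernel) _
    · exact mem_x hK h2 (by decide) (by decide +kernel) (by decide +kernel) _
  have hβ : Φ (el K 0 1 s * el K 1 0 s, el K 0 1 t * el K 1 0 t) = FP (el K 0 1 s * el K 1 0 s) * FR (el K 0 1 t * el K 1 0 t) := by
    rw [hΦ]
    show F1 (el K 0 1 s * el K 1 0 s) * F2 (el K 0 1 t * el K 1 0 t) = _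
    rw [map_mul, map_mul, map_mul, map_mul]
    have k1 : F1 (el K 0 1 s) = FP (el K 0 1 s) := (h1 0 1 (by decide) s).trans (hP 0 1 (by decide) s).symm
    have k2 : F1 (el K 1 0 s) = FP (el K 1 0 s) := (h1 1 0 (by decide) s).trans (hP 1 0 (by decide) s).symm
    have k3 : F2 (el K 0 1 t) = FR (el K 0 1 t) := (h2 0 1 (by decide) t).trans (hR 0 1 (by decide) t).symm
    have k4 : F2 (el K 1 0 t) = FR (el K 1 0 t) := (h2 1 0 (by decide) t).trans (hR 1 0 (by decide) t).symm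
    rw [k1, k2, k3, k4]
  have hmid : Φ (P, P') * (Φ b1 * Φ b2) * (Φ (P, P'))⁻¹ = α * (FP (el K 0 1 s * el K 1 0 s) * FR (el K 0 1 t * el K 1 0 t)) * γ := by
    rw [← hαe, ← hγe, ← hβ, ← map_mul, ← map_mul, ← map_inv, ← map_mul, ← map_mul, ← map_mul]
    congr 1
    exact Prod.ext hP1 hP2
  have cLP : ∀ a b, FL a * FP b = FP b * FL a := HomF.comm h orth_LP hL hP
  have cLR : ∀ a b, FL a * FR b = FR b * FL a := HomF.comm h orth_LR hL hR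
  refine ⟨Φ (P, P') * c, v3 * (FL M1 * α * (FL M1)⁻¹), ?_, M1 * M2, s, t, (FL M2)⁻¹ * γ * (FL M2)⁻¹⁻¹ * u3, ?_, ?_⟩
  · refine Subgroup.mul_mem _ hv3 (Uk.conj_Lv h.op addlq le_rfl ?_ hα)
    rw [Lv_op x addlq]
    exact HomF.mem fam_uL hL _
  · exact Subgroup.mul_mem _ (Uk.conj_Lv h addlq le_rfl (Subgroup.inv_mem _ (HomF.mem fam_uL hL _)) hγ) hu3
  · have e1 : Φ (P, P') * c * z * (Φ (P, P') * c)⁻¹ = Φ (P, P') * v1 * (Φ (P, P'))⁻¹ * (Φ (P, P') * (Φ b1 * Φ b2) * (Φ (P, P'))⁻¹) * (Φ (P, P') * u1 * (Φ (P, P'))⁻¹) := by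
      have e2 : Φ (P, P') * c * z * (Φ (P, P') * c)⁻¹ = Φ (P, P') * (c * z * c⁻¹) * (Φ (P, P'))⁻¹ := by group
      rw [e2, e0]
      group
    rw [e1, ev, eu, hmid, map_mul FL M1 M2]
    have d1 := cLP M2 (el K 0 1 s * el K 1 0 s)
    have d2 := cLR M2 (el K 0 1 t * el K 1 0 t)
    generalize FP (el K 0 1 s * el K 1 0 s) = p at d1 ⊢
    generalize FR (el K 0 1 t * el K 1 0 t) = q at d2 ⊢
    generalize FL M2 = m at d1 d2 ⊢
    symm
    calc v3 * (FL M1 * α * (FL M1)⁻¹) * (FL M1 * m * p * q) * (m⁻¹ * γ * m⁻¹⁻¹ * u3)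
        = v3 * FL M1 * α * (m * p) * q * m⁻¹ * γ * m * u3 := by group
      _ = v3 * FL M1 * α * p * (m * q) * m⁻¹ * γ * m * u3 := by rw [d1]; group
      _ = v3 * FL M1 * (α * (p * q) * γ) * (m * u3) := by rw [d2]; group

/-- `E_6` OVER THE FIELD WITH TWO ELEMENTS -/
theorem main6_two (hK : ∀ t : K, t = 0 ∨ t = 1) {x : Root 6 → K → G} (h : Stb K 6 x) :
    ∃ b : G, (∀ z : G, z ∉ Subgroup.center G → ∃ a c : G, z = a * b * a⁻¹ * (c * b * c⁻¹)) ∧ ∃ c : G, c * b * c⁻¹ = b⁻¹ := by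
  obtain ⟨FL, hL⟩ := exists_HomF h6 h fam_uL
  obtain ⟨FP, hP⟩ := exists_HomF h6 h fam_uP
  obtain ⟨FR, hR⟩ := exists_HomF h6 h fam_uR
  obtain ⟨Φ, hΦ⟩ := exists_three FL FP FR (HomF.comm h orth_LP hL hP) (HomF.comm h orth_LR hL hR) (HomF.comm h orth_PR hP hR)
  obtain ⟨z7, p7, hD7, hz, hz1, e7⟩ := diag7 hK (algebraMap K (AlgebraicClosure K))
  obtain ⟨w3, p3, hD3, hw, hw1, e3⟩ := diag3 hK (algebraMap K (AlgebraicClosure K))
  have hmem : ∀ a, Φ a ∈ Lv x lq := by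
    intro a
    rw [hΦ]
    exact Subgroup.mul_mem _ (Subgroup.mul_mem _ (HomF.mem fam_uL hL _) (HomF.mem fam_uP hP _)) (HomF.mem fam_uR hR _)
  have hs : ∀ k, 1 ≤ k → Sur x lq (Φ ((B7 K, C3 K), C3 K)) k ∧ Sur (op x) lq (Φ ((B7 K, C3 K), C3 K)) k := by
    intro k hk
    rw [hΦ]
    exact sur_three h6 addlq hk h (algebraMap K (AlgebraicClosure K)) fam_uL fam_uP fam_uR orth_LP orth_LR orth_PR hL hP hR hD7 e7 hD3 e3 hD3 e3
      (fun v hv hl => wt_ne hz hz1 hw hw1 hv hl)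
  have hr := real_two hK h hL hP hR
  have hw0 : FL (B7 K) * FP (C3 K) * FR (C3 K) = Φ ((B7 K, C3 K), C3 K) := by rw [hΦ]
  rw [hw0] at hr
  refine assemble h addlq lq_lt (NU.of_Lv h addlq (hmem _)) (NU.of_Lv h.op addlq (by rw [Lv_op x addlq]; exact hmem _)) (fun k hk => (hs k hk).1) (fun k hk => (hs k hk).2) hr ?_
  intro z _
  obtain ⟨c, v, hv, M, s, t, u, hu, e⟩ := gauss_two hK h hL hP hR z
  have e4 : FL M * FP (el K 0 1 s * el K 1 0 s) * FR (el K 0 1 t * el K 1 0 t) = Φ ((M, el K 0 1 s * el K 1 0 s), el K 0 1 t * el K 1 0 t) := by rw [hΦ]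
  obtain ⟨P, Q, hPQ⟩ := prod7 hK M
  rcases hPQ with hM | hM
  · obtain ⟨P', Q', h1⟩ := (prod3 hK s).1
    obtain ⟨P'', Q'', h2⟩ := (prod3 hK t).1
    refine ⟨c, v, hv, Φ ((P, P'), P''), hmem _, Φ ((Q, Q'), Q''), hmem _, _, Or.inl rfl, u, hu, ?_⟩
    rw [e, e4, ← map_inv, ← map_inv, ← map_mul, ← map_mul, ← map_mul, ← map_mul, ← map_mul]
    congr 3
    exact Prod.ext (Prod.ext hM h1) h2
  · obtain ⟨P', Q', h1⟩ := (prod3 hK s).2
    obtain ⟨P'', Q'', h2⟩ := (prod3 hK t).2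
    refine ⟨c, v, hv, Φ ((P, P'), P''), hmem _, Φ ((Q, Q'), Q''), hmem _, _, Or.inr rfl, u, hu, ?_⟩
    rw [e, e4, ← map_inv, ← map_inv, ← map_inv, ← map_mul, ← map_mul, ← map_mul, ← map_mul, ← map_mul]
    congr 3
    exact Prod.ext (Prod.ext hM h1) h2

/-- `E_6` over the field with two elements, the form used for the quotient by the centre -/
theorem main6 (hK : ∀ t : K, t = 0 ∨ t = 1) {x : Root 6 → K → G} (h : Stb K 6 x) :
    ∃ b : G, (∀ z : G, z ∉ Subgroup.center G → ∃ a c : G, z = a * b * a⁻¹ * (c * b * c⁻¹)) ∧ ∃ a c : G, 1 = a * b * a⁻¹ * (c * b * c⁻¹) := by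
  obtain ⟨b, h1, c, hc⟩ := main6_two hK h
  refine ⟨b, h1, 1, c, ?_⟩
  rw [hc, one_mul, inv_one, mul_one, mul_inv_cancel]

end Pool.Agent.ThW
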